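import Pool.Agent.H417_gam.Msum

/-! Words and their blocks. -/

set_option autoImplicit false
open Finset Filter Topology

namespace Pool.Agent.H417_gam

lemma digit_eq (y j : ℕ) : y / 3 ^ j % 3 = y % 3 ^ (j + 1) / 3 ^ j := by
  rw [pow_succ, Nat.mod_mul_right_div_self]

lemma ok_congr {n y y' : ℕ} (h : y ≡ y' [MOD 3 ^ n]) : ok n y ↔ ok n y' := by
  unfold ok
  have key : ∀ j < n, y / 3 ^ j % 3 = y' / 3 ^ j % 3 := by
    intro j hj
    rw [digit_eq, digit_eq]
    have h1 : y ≡ y' [MOD 3 ^ (j + 1)] := h.of_dvd (pow_dvd_pow 3 hj)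
    rw [h1]
  constructor
  · intro h1 j hj; rw [← key j hj]; exact h1 j hj
  · intro h1 j hj; rw [key j hj]; exact h1 j hj

lemma ok_low {n n' y : ℕ} (h : ok (n + n') y) : ok n y := fun j hj => h j (by omega)

lemma ok_high {n n' y : ℕ} (h : ok (n + n') y) : ok n' (y / 3 ^ n) := by
  intro j hj
  rw [Nat.div_div_eq_div_mul, ← pow_add]
  exact h (n + j) (by omega)

/-- a family of sets of words closed under taking blocks -/
structure Sys (V : ℕ → Finset ℕ) : Prop where
  lt : ∀ n, ∀ w ∈ V n, w < 3 ^ n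
  low : ∀ n n', ∀ w ∈ V (n + n'), w % 3 ^ n ∈ V n
  high : ∀ n n', ∀ w ∈ V (n + n'), w / 3 ^ n ∈ V n'

lemma Sys.blk {V : ℕ → Finset ℕ} (hV : Sys V) {a l n w : ℕ} (h : a + l ≤ n) (hw : w ∈ V n) :
    w / 3 ^ a % 3 ^ l ∈ V l := by
  obtain ⟨c, rfl⟩ := Nat.exists_eq_add_of_le h
  have h1 : w / 3 ^ a ∈ V (l + c) := hV.high a (l + c) w (by rwa [← add_assoc])
  exact hV.low l c _ h1

lemma Sys.card_add {V : ℕ → Finset ℕ} (hV : Sys V) (n n' : ℕ) :
    (V (n + n')).card ≤ (V n).card * (V n').card := by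
  rw [← Finset.card_product]
  apply Finset.card_le_card_of_injOn (fun w => (w % 3 ^ n, w / 3 ^ n))
  · intro w hw
    simp only [Finset.coe_product, Set.mem_prod, Finset.mem_coe]
    exact ⟨hV.low n n' w hw, hV.high n n' w hw⟩
  · intro w _ w' _ h
    simp only [Prod.mk.injEq] at h
    rw [← Nat.mod_add_div w (3 ^ n), ← Nat.mod_add_div w' (3 ^ n), h.1, h.2]

/-- **product bound** -/
lemma prod_bound {V : ℕ → Finset ℕ} (hV : Sys V) (N n : ℕ) {K : ℝ} (hK0 : 0 ≤ K)
    (hK : ∀ u : ℕ, (((V n).filter (fun w => ok n (N * w + u))).card : ℝ) ≤ K) :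
    ∀ T u : ℕ, (((V (T * n)).filter (fun w => ok (T * n) (N * w + u))).card : ℝ) ≤ K ^ T := by
  classical
  intro T
  induction T with
  | zero =>
    intro u
    have h1 : ((V (0 * n)).filter (fun w => ok (0 * n) (N * w + u))).card ≤ 1 := by
      apply Finset.card_le_one.2
      intro a ha b hb
      have h1 := hV.lt _ a (Finset.mem_filter.1 ha).1
      have h2 := hV.lt _ b (Finset.mem_filter.1 hb).1
      simp only [zero_mul, pow_zero, Nat.lt_one_iff] at h1 h2
      rw [h1, h2]
    rw [pow_zero]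
    exact_mod_cast h1
  | succ T ih =>
    intro u
    have e : (T + 1) * n = n + T * n := by ring
    rw [e]
    set X := (V (n + T * n)).filter (fun w => ok (n + T * n) (N * w + u)) with hX
    have hmaps : ∀ w ∈ X, w % 3 ^ n ∈ (V n).filter (fun w => ok n (N * w + u)) := by
      intro w hw
      rw [hX, Finset.mem_filter] at hw
      rw [Finset.mem_filter]
      refine ⟨hV.low n _ w hw.1, ?_⟩
      have h1 := ok_low hw.2
      refine (ok_congr ?_).1 h1
      exact (Nat.ModEq.mul_left N (Nat.mod_modEq w (3 ^ n)).symm).add_right u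
    rw [Finset.card_eq_sum_card_fiberwise (f := fun w => w % 3 ^ n) hmaps]
    push_cast
    have hone : ∀ w0 ∈ (V n).filter (fun w => ok n (N * w + u)),
        ((X.filter (fun w => w % 3 ^ n = w0)).card : ℝ) ≤ K ^ T := by
      intro w0 _
      refine le_trans ?_ (ih ((N * w0 + u) / 3 ^ n))
      have : (X.filter (fun w => w % 3 ^ n = w0)).card ≤
          ((V (T * n)).filter (fun w => ok (T * n) (N * w + (N * w0 + u) / 3 ^ n))).card := by
        apply Finset.card_le_card_of_injOn (fun w => w / 3 ^ n)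
        · intro w hw
          simp only [Finset.coe_filter, Set.mem_ofPred_eq, hX, Finset.mem_filter] at hw ⊢
          obtain ⟨⟨hw1, hw2⟩, hw3⟩ := hw
          refine ⟨hV.high n _ w hw1, ?_⟩
          have h1 := ok_high hw2
          have h2 : (N * w + u) / 3 ^ n = N * (w / 3 ^ n) + (N * w0 + u) / 3 ^ n := by
            conv_lhs => rw [← Nat.mod_add_div w (3 ^ n), hw3]
            have : N * (w0 + 3 ^ n * (w / 3 ^ n)) + u =
                (N * w0 + u) + 3 ^ n * (N * (w / 3 ^ n)) := by ring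
            rw [this, Nat.add_mul_div_left _ _ (by positivity)]
            ring
          rwa [h2] at h1
        · intro w hw w' hw' h
          simp only [Finset.coe_filter, Set.mem_ofPred_eq] at hw hw'
          have h' : w / 3 ^ n = w' / 3 ^ n := h
          rw [← Nat.mod_add_div w (3 ^ n), ← Nat.mod_add_div w' (3 ^ n), hw.2, hw'.2, h']
      exact_mod_cast this
    calc ∑ w0 ∈ (V n).filter (fun w => ok n (N * w + u)),
          ((X.filter (fun w => w % 3 ^ n = w0)).card : ℝ) ≤
          ∑ _w0 ∈ (V n).filter (fun w => ok n (N * w + u)), K ^ T := Finset.sum_le_sum hone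
      _ = ((V n).filter (fun w => ok n (N * w + u))).card * K ^ T := by
          rw [Finset.sum_const, nsmul_eq_mul]
      _ ≤ K * K ^ T := mul_le_mul_of_nonneg_right (hK u) (by positivity)
      _ = K ^ (T + 1) := by ring

/-- decomposition of a word into blocks -/
lemma word_blocks (l : ℕ) : ∀ (k w : ℕ), w < 3 ^ (k * l) →
    ∑ i : Fin k, (w / 3 ^ (i * l) % 3 ^ l) * 3 ^ ((i : ℕ) * l) = w := by
  intro k
  induction k with
  | zero =>
    intro w hw
    simp only [zero_mul, pow_zero, Nat.lt_one_iff] at hw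
    simp [hw]
  | succ k ih =>
    intro w hw
    rw [Fin.sum_univ_castSucc]
    simp only [Fin.val_castSucc, Fin.val_last]
    have h1 := ih (w % 3 ^ (k * l)) (Nat.mod_lt _ (by positivity))
    have h2 : ∀ i : Fin k, w % 3 ^ (k * l) / 3 ^ ((i : ℕ) * l) % 3 ^ l = w / 3 ^ ((i : ℕ) * l) % 3 ^ l := by
      intro i
      have hi := i.isLt
      have e : 3 ^ (k * l) = 3 ^ ((i : ℕ) * l) * 3 ^ ((k - i) * l) := by
        rw [← pow_add, ← add_mul]
        congr 2
        omega
      rw [e, Nat.mod_mul_right_div_self]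
      apply Nat.mod_mod_of_dvd
      apply pow_dvd_pow
      have : 1 ≤ k - i := by omega
      calc l = 1 * l := (one_mul l).symm
        _ ≤ (k - i) * l := Nat.mul_le_mul_right l this
    rw [Finset.sum_congr rfl (fun i _ => by rw [h2 i])] at h1
    rw [h1]
    have h3 : w / 3 ^ (k * l) % 3 ^ l = w / 3 ^ (k * l) := by
      apply Nat.mod_eq_of_lt
      rw [Nat.div_lt_iff_lt_mul (by positivity), ← pow_add]
      have : l + k * l = (k + 1) * l := by ring
      rw [this]; exact hw
    rw [h3, mul_comm (w / 3 ^ (k * l))]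
    exact Nat.mod_add_div _ _

/-- the maps on blocks -/
def ff (N l b X : ℕ) : ℕ := N * X / 3 ^ (b * l) % 3 ^ l

/-- the top block of `N w + u` -/
lemma top_block (N Q l u : ℕ) (Y : Fin (Q + 1) → ℕ) (w : ℕ)
    (hw : ∑ i : Fin (Q + 1), Y i * 3 ^ ((i : ℕ) * l) = w) (hok : ok ((Q + 1) * l) (N * w + u)) :
    ∃ κ < Q + 2, ok l ((∑ i : Fin (Q + 1), ff N l (Q - i) (Y i)) + (u / 3 ^ (Q * l) + κ)) := by
  have e : (Q + 1) * l = Q * l + l := by ring
  rw [e] at hok
  have h1 := ok_high hok
  set P := 3 ^ (Q * l) with hP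
  have hP0 : 0 < P := by positivity
  set B : Fin (Q + 1) → ℕ := fun i => N * Y i / 3 ^ ((Q - i) * l) with hB
  set R : Fin (Q + 1) → ℕ := fun i => (N * Y i % 3 ^ ((Q - i) * l)) * 3 ^ ((i : ℕ) * l) with hR
  have hPi : ∀ i : Fin (Q + 1), 3 ^ ((Q - i) * l) * 3 ^ ((i : ℕ) * l) = P := by
    intro i
    have := i.isLt
    rw [← pow_add, ← add_mul, hP]
    congr 2
    omega
  have hBR : ∀ i, N * (Y i * 3 ^ ((i : ℕ) * l)) = P * B i + R i := by
    intro i
    have h2 := Nat.div_add_mod (N * Y i) (3 ^ ((Q - i) * l))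
    calc N * (Y i * 3 ^ ((i : ℕ) * l)) = (N * Y i) * 3 ^ ((i : ℕ) * l) := by ring
      _ = (3 ^ ((Q - i) * l) * (N * Y i / 3 ^ ((Q - i) * l)) + N * Y i % 3 ^ ((Q - i) * l)) *
          3 ^ ((i : ℕ) * l) := by rw [h2]
      _ = (3 ^ ((Q - i) * l) * 3 ^ ((i : ℕ) * l)) * B i + R i := by rw [hB, hR]; ring
      _ = P * B i + R i := by rw [hPi i]
  have hRlt : ∀ i, R i < P := by
    intro i
    rw [← hPi i]
    exact Nat.mul_lt_mul_of_pos_right (Nat.mod_lt _ (by positivity)) (by positivity)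
  have hdec : N * w + u = (∑ i, R i + u % P) + P * (∑ i, B i + u / P) := by
    rw [← hw, Finset.mul_sum, Finset.sum_congr rfl (fun i _ => hBR i), Finset.sum_add_distrib,
      ← Finset.mul_sum]
    have := Nat.mod_add_div u P
    nlinarith
  set κ := (∑ i, R i + u % P) / P with hκ
  refine ⟨κ, ?_, ?_⟩
  · rw [hκ, Nat.div_lt_iff_lt_mul hP0]
    have h2 : ∑ i, R i ≤ (Q + 1) * P := by
      calc ∑ i, R i ≤ ∑ _i : Fin (Q + 1), P := Finset.sum_le_sum (fun i _ => (hRlt i).le)
        _ = (Q + 1) * P := by simp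
    have h3 := Nat.mod_lt u hP0
    calc ∑ i, R i + u % P < (Q + 1) * P + P := by omega
      _ = (Q + 2) * P := by ring
  · rw [hdec, Nat.add_mul_div_left _ _ hP0] at h1
    refine (ok_congr ?_).1 h1
    have h2 : κ + (∑ i, B i + u / P) = ∑ i, B i + (u / P + κ) := by ring
    rw [h2]
    apply Nat.ModEq.add_right
    have h3 : ∀ i, B i ≡ ff N l (Q - i) (Y i) [MOD 3 ^ l] := by
      intro i
      exact (Nat.mod_modEq _ _).symm
    exact Nat.ModEq.sum (fun i _ => h3 i)

/-- **block bound** -/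
lemma block_bound {V : ℕ → Finset ℕ} (hV : Sys V) (Q l N φ : ℕ) {t : ℝ} (ht1 : t < 1)
    (hD : ∀ κ : ℕ, ∀ x : Fin (Q + 1) → Fin 3 → ℝ, x ∈ DD (Q + 1) →
      ∑ c ∈ GG (Q + 1) κ, ∏ i, (x i (c i)) ^ (1 - t) ≤ (4 : ℝ) ^ t)
    (hφ : ∀ b ≤ Q, ∀ y, ((V l).filter (fun X => ff N l b X = y)).card ≤ φ) (u : ℕ) :
    (((V ((Q + 1) * l)).filter (fun w => ok ((Q + 1) * l) (N * w + u))).card : ℝ) ≤
      (Q + 2) * (φ ^ (Q + 1) * (4 ^ (t * l) * (((V l).card : ℝ) ^ (1 - t)) ^ (Q + 1))) := by
  classical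
  set X := (V ((Q + 1) * l)).filter (fun w => ok ((Q + 1) * l) (N * w + u)) with hX
  set Z : ℕ → Finset (Fin (Q + 1) → ℕ) := fun κ =>
    (Fintype.piFinset (fun _ : Fin (Q + 1) => V l)).filter
      (fun Y => ok l ((∑ i : Fin (Q + 1), ff N l (Q - i) (Y i)) + (u / 3 ^ (Q * l) + κ))) with hZ
  have h1 : X.card ≤ ((Finset.range (Q + 2)).biUnion Z).card := by
    apply Finset.card_le_card_of_injOn
      (fun w => (fun i : Fin (Q + 1) => w / 3 ^ ((i : ℕ) * l) % 3 ^ l))
    · intro w hw
      have hw' : w ∈ V ((Q + 1) * l) ∧ ok ((Q + 1) * l) (N * w + u) := by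
        simpa [hX] using hw
      obtain ⟨κ, hκ, hok⟩ := top_block N Q l u _ w
        (word_blocks l (Q + 1) w (hV.lt _ w hw'.1)) hw'.2
      rw [Finset.mem_coe, Finset.mem_biUnion]
      refine ⟨κ, Finset.mem_range.2 hκ, ?_⟩
      rw [hZ]
      simp only [Finset.mem_filter, Fintype.mem_piFinset]
      refine ⟨fun i => ?_, hok⟩
      apply hV.blk _ hw'.1
      have := i.isLt
      calc (i : ℕ) * l + l = (i + 1) * l := by ring
        _ ≤ (Q + 1) * l := Nat.mul_le_mul_right l (by omega)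
    · intro w hw w' hw' h
      have hw1 : w ∈ V ((Q + 1) * l) := by
        have : w ∈ V ((Q + 1) * l) ∧ ok ((Q + 1) * l) (N * w + u) := by simpa [hX] using hw
        exact this.1
      have hw2 : w' ∈ V ((Q + 1) * l) := by
        have : w' ∈ V ((Q + 1) * l) ∧ ok ((Q + 1) * l) (N * w' + u) := by simpa [hX] using hw'
        exact this.1
      rw [← word_blocks l (Q + 1) w (hV.lt _ w hw1), ← word_blocks l (Q + 1) w' (hV.lt _ w' hw2)]
      apply Finset.sum_congr rfl
      intro i _
      have := congrFun h i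
      simp only at this
      rw [this]
  have h2 : ((Finset.range (Q + 2)).biUnion Z).card ≤ ∑ κ ∈ Finset.range (Q + 2), (Z κ).card :=
    Finset.card_biUnion_le
  set A : Fin (Q + 1) → Finset ℕ := fun i => (V l).image (ff N l (Q - i)) with hA
  have h3 : ∀ κ, ((Z κ).card : ℝ) ≤
      φ ^ (Q + 1) * (4 ^ (t * l) * (((V l).card : ℝ) ^ (1 - t)) ^ (Q + 1)) := by
    intro κ
    set W := (Fintype.piFinset A).filter
      (fun a => ok l ((∑ i, a i) + (u / 3 ^ (Q * l) + κ))) with hW
    have h4 : (Z κ).card ≤ φ ^ (Q + 1) * W.card := by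
      apply Finset.card_le_mul_card_image_of_maps_to
        (f := fun Y : Fin (Q + 1) → ℕ => (fun i : Fin (Q + 1) => ff N l (Q - i) (Y i)))
      · intro Y hY
        rw [hZ] at hY
        simp only [Finset.mem_filter, Fintype.mem_piFinset] at hY
        rw [hW]
        simp only [Finset.mem_filter, Fintype.mem_piFinset]
        exact ⟨fun i => Finset.mem_image_of_mem _ (hY.1 i), hY.2⟩
      · intro a _
        have h5 : (Z κ).filter (fun Y => (fun i : Fin (Q + 1) => ff N l (Q - i) (Y i)) = a) ⊆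
            Fintype.piFinset (fun i : Fin (Q + 1) => (V l).filter (fun X => ff N l (Q - i) X = a i)) := by
          intro Y hY
          rw [Finset.mem_filter] at hY
          rw [Fintype.mem_piFinset]
          intro i
          rw [Finset.mem_filter]
          have h6 := hY.1
          rw [hZ] at h6
          simp only [Finset.mem_filter, Fintype.mem_piFinset] at h6
          exact ⟨h6.1 i, congrFun hY.2 i⟩
        refine (Finset.card_le_card h5).trans ?_
        rw [Fintype.card_piFinset]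
        calc ∏ i : Fin (Q + 1), ((V l).filter (fun X => ff N l (Q - i) X = a i)).card ≤
              ∏ _i : Fin (Q + 1), φ := by
              apply Finset.prod_le_prod' 
              intro i _
              exact hφ _ (Nat.sub_le _ _) _
          _ = φ ^ (Q + 1) := by simp
    have h5 := multi_sum ht1 hD l A (by
      intro i a ha
      rw [hA] at ha
      simp only [Finset.mem_image] at ha
      obtain ⟨X, _, rfl⟩ := ha
      exact Nat.mod_lt _ (by positivity)) (u / 3 ^ (Q * l) + κ)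
    have h6 : ∏ i, ((A i).card : ℝ) ^ (1 - t) ≤ (((V l).card : ℝ) ^ (1 - t)) ^ (Q + 1) := by
      calc ∏ i, ((A i).card : ℝ) ^ (1 - t) ≤ ∏ _i : Fin (Q + 1), ((V l).card : ℝ) ^ (1 - t) := by
            apply Finset.prod_le_prod
            · intro i _; positivity
            · intro i _
              apply Real.rpow_le_rpow (by positivity) _ (by linarith)
              exact_mod_cast Finset.card_image_le
        _ = _ := by simp
    calc ((Z κ).card : ℝ) ≤ φ ^ (Q + 1) * W.card := by exact_mod_cast h4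
      _ ≤ φ ^ (Q + 1) * (4 ^ (t * l) * ∏ i, ((A i).card : ℝ) ^ (1 - t)) :=
          mul_le_mul_of_nonneg_left h5 (by positivity)
      _ ≤ φ ^ (Q + 1) * (4 ^ (t * l) * (((V l).card : ℝ) ^ (1 - t)) ^ (Q + 1)) := by
          apply mul_le_mul_of_nonneg_left _ (by positivity)
          exact mul_le_mul_of_nonneg_left h6 (by positivity)
  calc (X.card : ℝ) ≤ ((∑ κ ∈ Finset.range (Q + 2), (Z κ).card : ℕ) : ℝ) := by
        exact_mod_cast h1.trans h2
    _ = ∑ κ ∈ Finset.range (Q + 2), ((Z κ).card : ℝ) := by push_cast; rfl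
    _ ≤ ∑ _κ ∈ Finset.range (Q + 2),
          ((φ : ℝ) ^ (Q + 1) * (4 ^ (t * l) * (((V l).card : ℝ) ^ (1 - t)) ^ (Q + 1))) :=
        Finset.sum_le_sum (fun κ _ => h3 κ)
    _ = _ := by
        rw [Finset.sum_const, Finset.card_range, nsmul_eq_mul]
        push_cast
        ring

end Pool.Agent.H417_gam
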