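import Mathlib

/-! A digit inequality for sums of several independent digits. -/

set_option autoImplicit false
open Finset Filter Topology

namespace Pool.Agent.H417_gam

/-- the digit vectors whose sum (plus `κ`) is not `2` modulo `3` -/
def GG (r κ : ℕ) : Finset (Fin r → Fin 3) :=
  univ.filter (fun c => ((∑ i, (c i : ℕ)) + κ) % 3 ≠ 2)

lemma prod_le_two {ι : Type*} [DecidableEq ι] (s : Finset ι) (f : ι → ℕ) (h2 : ∀ i ∈ s, f i ≤ 2)
    (h1 : ∀ i ∈ s, ∀ j ∈ s, i ≠ j → f i ≤ 1 ∨ f j ≤ 1) : ∏ i ∈ s, f i ≤ 2 := by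
  by_cases h : ∀ i ∈ s, f i ≤ 1
  · exact (Finset.prod_le_one' h).trans (by norm_num)
  · push Not at h
    obtain ⟨i, hi, hi1⟩ := h
    rw [← Finset.mul_prod_erase s f hi]
    have h3 : ∏ x ∈ s.erase i, f x ≤ 1 := by
      apply Finset.prod_le_one'
      intro j hj
      rw [Finset.mem_erase] at hj
      rcases h1 i hi j hj.2 (Ne.symm hj.1) with h | h
      · omega
      · exact h
    calc f i * ∏ x ∈ s.erase i, f x ≤ 2 * 1 := Nat.mul_le_mul (h2 i hi) h3
      _ = 2 := rfl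

/-- a product set all of whose sums avoid the digit `2` has at most two elements -/
lemma card_prod_le_two (r κ : ℕ) (S : Fin r → Finset (Fin 3))
    (h : ∀ c ∈ Fintype.piFinset S, ((∑ i, (c i : ℕ)) + κ) % 3 ≠ 2) :
    (Fintype.piFinset S).card ≤ 2 := by
  classical
  by_cases hne : (Fintype.piFinset S).Nonempty
  swap
  · rw [Finset.not_nonempty_iff_eq_empty.1 hne]; simp
  obtain ⟨c, hc⟩ := hne
  rw [Fintype.mem_piFinset] at hc
  rw [Fintype.card_piFinset]
  have key : ∀ (c : Fin r → Fin 3) (i : Fin r) (a : Fin 3),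
      ∑ j, ((Function.update c i a) j : ℕ) = a + ∑ j ∈ univ.erase i, (c j : ℕ) := by
    intro c i a
    rw [← Finset.add_sum_erase univ _ (Finset.mem_univ i)]
    congr 1
    · simp
    · apply Finset.sum_congr rfl
      intro j hj
      rw [Function.update_of_ne (Finset.ne_of_mem_erase hj)]
  have hupd : ∀ (c : Fin r → Fin 3), (∀ j, c j ∈ S j) → ∀ i, ∀ a ∈ S i, ∀ j,
      (Function.update c i a) j ∈ S j := by
    intro c hc i a ha j
    by_cases hj : j = i
    · subst hj; simpa using ha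
    · rw [Function.update_of_ne hj]; exact hc j
  apply prod_le_two
  · intro i _
    by_contra hcon
    push Not at hcon
    have hS : S i = univ := by
      apply Finset.eq_univ_of_card
      have := Finset.card_le_univ (S i)
      simp only [Fintype.card_fin] at this ⊢
      omega
    have e0 := h _ (Fintype.mem_piFinset.2 (hupd c hc i 0 (by rw [hS]; simp)))
    have e1 := h _ (Fintype.mem_piFinset.2 (hupd c hc i 1 (by rw [hS]; simp)))
    have e2 := h _ (Fintype.mem_piFinset.2 (hupd c hc i 2 (by rw [hS]; simp)))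
    rw [key] at e0 e1 e2
    have v0 : ((0 : Fin 3) : ℕ) = 0 := rfl
    have v1 : ((1 : Fin 3) : ℕ) = 1 := rfl
    have v2 : ((2 : Fin 3) : ℕ) = 2 := rfl
    rw [v0] at e0
    rw [v1] at e1
    rw [v2] at e2
    omega
  · intro i _ j _ hij
    by_contra hcon
    push Not at hcon
    obtain ⟨a, ha, a', ha', haa⟩ := Finset.one_lt_card.1 hcon.1
    obtain ⟨b, hb, b', hb', hbb⟩ := Finset.one_lt_card.1 hcon.2
    have key2 : ∀ x y : Fin 3, ∑ k, ((Function.update (Function.update c i x) j y) k : ℕ) =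
        y + (x + ∑ k ∈ (univ.erase j).erase i, (c k : ℕ)) := by
      intro x y
      rw [key]
      congr 1
      rw [← Finset.add_sum_erase (univ.erase j) _ (Finset.mem_erase.2 ⟨hij, Finset.mem_univ i⟩)]
      congr 1
      · simp
      · apply Finset.sum_congr rfl
        intro k hk
        rw [Function.update_of_ne (Finset.ne_of_mem_erase hk)]
    have hx : ∀ x ∈ S i, ∀ y ∈ S j, ((y : ℕ) + ((x : ℕ) +
        ∑ k ∈ (univ.erase j).erase i, (c k : ℕ)) + κ) % 3 ≠ 2 := by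
      intro x hx y hy
      have := h _ (Fintype.mem_piFinset.2 (hupd _ (hupd c hc i x hx) j y hy))
      rwa [key2] at this
    have e1 := hx a ha b hb
    have e2 := hx a ha b' hb'
    have e3 := hx a' ha' b hb
    have e4 := hx a' ha' b' hb'
    have n1 : (a : ℕ) ≠ a' := fun h => haa (Fin.ext h)
    have n2 : (b : ℕ) ≠ b' := fun h => hbb (Fin.ext h)
    have l1 := a.isLt
    have l2 := a'.isLt
    have l3 := b.isLt
    have l4 := b'.isLt
    omega

lemma rpow_le_aux {w t : ℝ} (hw0 : 0 ≤ w) (ht1 : t < 1) :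
    w ^ (1 - t) ≤ w + t * ((1 - t)⁻¹ * Real.negMulLog (w ^ (1 - t))) := by
  rcases hw0.eq_or_lt with h | h
  · rw [← h, Real.zero_rpow (by linarith)]
    simp
  · have h1 : Real.negMulLog (w ^ (1 - t)) = -(w ^ (1 - t) * ((1 - t) * Real.log w)) := by
      rw [Real.negMulLog, Real.log_rpow h]; ring
    rw [h1]
    have h2 : (1 - t) ≠ 0 := by linarith
    have h3 : (1 - t)⁻¹ * -(w ^ (1 - t) * ((1 - t) * Real.log w)) = - (w ^ (1 - t) * Real.log w) := by
      field_simp
    rw [h3]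
    have h4 : w = w ^ (1 - t) * w ^ t := by
      rw [← Real.rpow_add h]; simp
    have h5 : 1 + t * Real.log w ≤ w ^ t := by
      rw [Real.rpow_def_of_pos h]
      have := Real.add_one_le_exp (Real.log w * t)
      linarith
    have h6 : 0 < w ^ (1 - t) := Real.rpow_pos_of_pos h _
    have h7 : w ^ (1 - t) * (1 + t * Real.log w) ≤ w ^ (1 - t) * w ^ t :=
      mul_le_mul_of_nonneg_left h5 h6.le
    rw [← h4] at h7
    nlinarith

lemma negMulLog_le {w : ℝ} (hw0 : 0 < w) : Real.negMulLog w ≤ 1 - w := by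
  rw [Real.negMulLog]
  have h1 := Real.one_sub_inv_le_log_of_pos hw0
  have h2 : w * (1 - w⁻¹) ≤ w * Real.log w := mul_le_mul_of_nonneg_left h1 hw0.le
  have h3 : w * (1 - w⁻¹) = w - 1 := by
    field_simp
  linarith

/-- weights of a digit vector -/
noncomputable def WW {r : ℕ} (x : Fin r → Fin 3 → ℝ) (c : Fin r → Fin 3) : ℝ := ∏ i, x i (c i)

/-- probability vectors -/
def DD (r : ℕ) : Set (Fin r → Fin 3 → ℝ) := Set.pi Set.univ (fun _ => stdSimplex ℝ (Fin 3))

lemma mem_DD {r : ℕ} {x : Fin r → Fin 3 → ℝ} :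
    x ∈ DD r ↔ ∀ i, (∀ c, 0 ≤ x i c) ∧ ∑ c, x i c = 1 := by
  simp [DD, stdSimplex]

lemma isCompact_DD (r : ℕ) : IsCompact (DD r) :=
  isCompact_univ_pi fun _ => isCompact_stdSimplex ℝ (Fin 3)

lemma WW_nonneg {r : ℕ} {x : Fin r → Fin 3 → ℝ} (hx : x ∈ DD r) (c : Fin r → Fin 3) :
    0 ≤ WW x c := Finset.prod_nonneg fun i _ => ((mem_DD.1 hx) i).1 _

lemma sum_WW {r : ℕ} {x : Fin r → Fin 3 → ℝ} (hx : x ∈ DD r) : ∑ c, WW x c = 1 := by
  have h := (Finset.prod_univ_sum (fun _ : Fin r => (univ : Finset (Fin 3))) (fun i j => x i j))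
  simp only [Fintype.piFinset_univ] at h
  unfold WW
  rw [← h]
  exact Finset.prod_eq_one fun i _ => ((mem_DD.1 hx) i).2

lemma WW_le_one {r : ℕ} {x : Fin r → Fin 3 → ℝ} (hx : x ∈ DD r) (c : Fin r → Fin 3) :
    WW x c ≤ 1 := by
  rw [← sum_WW hx]
  exact Finset.single_le_sum (fun c _ => WW_nonneg hx c) (Finset.mem_univ c)

lemma sumG_le_one {r : ℕ} {x : Fin r → Fin 3 → ℝ} (hx : x ∈ DD r) (κ : ℕ) :
    ∑ c ∈ GG r κ, WW x c ≤ 1 := by
  rw [← sum_WW hx]
  exact Finset.sum_le_sum_of_subset_of_nonneg (Finset.subset_univ _)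
    (fun c _ _ => WW_nonneg hx c)

/-- the entropy-like term -/
noncomputable def EE (r κ : ℕ) (t : ℝ) (x : Fin r → Fin 3 → ℝ) : ℝ :=
  ∑ c ∈ GG r κ, (1 - t)⁻¹ * Real.negMulLog ((WW x c) ^ (1 - t))

lemma continuous_WW {r : ℕ} (c : Fin r → Fin 3) :
    Continuous (fun x : Fin r → Fin 3 → ℝ => WW x c) := by
  unfold WW
  fun_prop

lemma continuousAt_EE (r κ : ℕ) (x : Fin r → Fin 3 → ℝ) :
    ContinuousAt (fun z : ℝ × (Fin r → Fin 3 → ℝ) => EE r κ z.1 z.2) (0, x) := by
  unfold EE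
  refine tendsto_finsetSum _ fun c _ => ?_
  have h1 : ContinuousAt (fun z : ℝ × (Fin r → Fin 3 → ℝ) => (1 - z.1)⁻¹) (0, x) := by
    apply ContinuousAt.inv₀
    · fun_prop
    · simp
  have h2 : ContinuousAt (fun z : ℝ × (Fin r → Fin 3 → ℝ) => (WW z.2 c) ^ (1 - z.1)) (0, x) := by
    apply ContinuousAt.rpow
    · exact ((continuous_WW c).comp continuous_snd).continuousAt
    · fun_prop
    · right; simp
  have h3 : ContinuousAt (fun z : ℝ × (Fin r → Fin 3 → ℝ) =>
      Real.negMulLog ((WW z.2 c) ^ (1 - z.1))) (0, x) :=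
    Real.continuous_negMulLog.continuousAt.comp h2
  exact (h1.mul h3)

lemma EE_zero_le {r : ℕ} (κ : ℕ) {x : Fin r → Fin 3 → ℝ} (hx : x ∈ DD r)
    (hG : ∑ c ∈ GG r κ, WW x c = 1) : EE r κ 0 x ≤ 1 := by
  classical
  unfold EE
  simp only [sub_zero, inv_one, Real.rpow_one, one_mul]
  set S : Fin r → Finset (Fin 3) := fun i => univ.filter (fun c => x i c ≠ 0) with hS
  have hmem : ∀ c, c ∈ Fintype.piFinset S ↔ WW x c ≠ 0 := by
    intro c
    rw [Fintype.mem_piFinset, WW, Finset.prod_ne_zero_iff]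
    simp [hS]
  have hout : ∀ c, c ∉ GG r κ → WW x c = 0 := by
    intro c hc
    have h1 := sum_WW hx
    rw [← Finset.sum_add_sum_compl (GG r κ), hG] at h1
    have h2 : ∑ c ∈ (GG r κ)ᶜ, WW x c = 0 := by linarith
    rw [Finset.sum_eq_zero_iff_of_nonneg (fun c _ => WW_nonneg hx c)] at h2
    exact h2 c (by simpa using hc)
  have hcard : (Fintype.piFinset S).card ≤ 2 := by
    apply card_prod_le_two r κ S
    intro c hc
    have h1 := (hmem c).1 hc
    by_contra h2
    apply h1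
    apply hout
    simp only [GG, Finset.mem_filter, Finset.mem_univ, true_and, not_not]
    exact h2
  have hsub : Fintype.piFinset S ⊆ GG r κ := by
    intro c hc
    by_contra h2
    exact (hmem c).1 hc (hout c h2)
  have h1 : ∑ c ∈ GG r κ, Real.negMulLog (WW x c) = ∑ c ∈ Fintype.piFinset S, Real.negMulLog (WW x c) := by
    symm
    apply Finset.sum_subset hsub
    intro c _ hc
    have : WW x c = 0 := by
      by_contra h3
      exact hc ((hmem c).2 h3)
    rw [this]; simp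
  have h2 : ∑ c ∈ GG r κ, WW x c = ∑ c ∈ Fintype.piFinset S, WW x c := by
    symm
    apply Finset.sum_subset hsub
    intro c _ hc
    by_contra h3
    exact hc ((hmem c).2 h3)
  rw [h1]
  calc ∑ c ∈ Fintype.piFinset S, Real.negMulLog (WW x c) ≤ ∑ c ∈ Fintype.piFinset S, (1 - WW x c) := by
        apply Finset.sum_le_sum
        intro c hc
        apply negMulLog_le
        exact lt_of_le_of_ne (WW_nonneg hx c) (Ne.symm ((hmem c).1 hc))
    _ = (Fintype.piFinset S).card - 1 := by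
        rw [Finset.sum_sub_distrib, ← h2, hG]; simp
    _ ≤ 1 := by
        have : ((Fintype.piFinset S).card : ℝ) ≤ 2 := by exact_mod_cast hcard
        linarith

lemma one_lt_log_four : 1 < Real.log 4 := by
  have h1 : Real.log 4 = 2 * Real.log 2 := by
    rw [show (4 : ℝ) = 2 ^ 2 by norm_num, Real.log_pow]; norm_num
  have := Real.log_two_gt_d9
  rw [h1]; linarith

lemma digit_local (r κ : ℕ) : ∀ᶠ t : ℝ in 𝓝 0, ∀ x ∈ DD r, x ∈ DD r → 0 < t →
    ∑ c ∈ GG r κ, WW x c + t * EE r κ t x ≤ 1 + t * Real.log 4 := by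
  refine (isCompact_DD r).eventually_forall_of_forall_eventually
    (P := fun (t : ℝ) (x : Fin r → Fin 3 → ℝ) => x ∈ DD r → 0 < t →
      ∑ c ∈ GG r κ, WW x c + t * EE r κ t x ≤ 1 + t * Real.log 4) (fun y hy => ?_)
  have hE := continuousAt_EE r κ y
  have hS : Continuous (fun z : ℝ × (Fin r → Fin 3 → ℝ) => ∑ c ∈ GG r κ, WW z.2 c) := by
    apply continuous_finsetSum
    intro c _
    exact (continuous_WW c).comp continuous_snd
  rcases (sumG_le_one hy κ).eq_or_lt with h | h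
  · have h1 : EE r κ 0 y < Real.log 4 := (EE_zero_le κ hy h).trans_lt one_lt_log_four
    have h2 : ∀ᶠ z : ℝ × (Fin r → Fin 3 → ℝ) in 𝓝 (0, y), EE r κ z.1 z.2 < Real.log 4 :=
      hE.eventually_lt_const h1
    filter_upwards [h2] with z hz hzD hz0
    have h3 := sumG_le_one hzD κ
    have h4 : z.1 * EE r κ z.1 z.2 ≤ z.1 * Real.log 4 := mul_le_mul_of_nonneg_left hz.le hz0.le
    linarith
  · have hF : ContinuousAt (fun z : ℝ × (Fin r → Fin 3 → ℝ) =>
        ∑ c ∈ GG r κ, WW z.2 c + z.1 * EE r κ z.1 z.2 - z.1 * Real.log 4) (0, y) := by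
      apply ContinuousAt.sub
      · exact hS.continuousAt.add (continuousAt_fst.mul hE)
      · exact continuousAt_fst.mul continuousAt_const
    have h1 : ∀ᶠ z : ℝ × (Fin r → Fin 3 → ℝ) in 𝓝 (0, y),
        ∑ c ∈ GG r κ, WW z.2 c + z.1 * EE r κ z.1 z.2 - z.1 * Real.log 4 < 1 := by
      apply hF.eventually_lt_const
      simpa using h
    filter_upwards [h1] with z hz _ _
    linarith

/-- **digit inequality** -/
theorem digit_ineq (r : ℕ) : ∃ t : ℝ, 0 < t ∧ t < 1 ∧ ∀ κ : ℕ, ∀ x : Fin r → Fin 3 → ℝ, x ∈ DD r →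
    ∑ c ∈ GG r κ, ∏ i, (x i (c i)) ^ (1 - t) ≤ (4 : ℝ) ^ t := by
  have h1 : ∀ᶠ t : ℝ in 𝓝 0, ∀ κ ∈ Finset.range 3, ∀ x ∈ DD r, x ∈ DD r → 0 < t →
      ∑ c ∈ GG r κ, WW x c + t * EE r κ t x ≤ 1 + t * Real.log 4 := by
    rw [Filter.eventually_all_finset]
    intro κ _
    exact digit_local r κ
  rw [Metric.eventually_nhds_iff] at h1
  obtain ⟨ε, hε, h2⟩ := h1
  refine ⟨min (ε / 2) (1 / 2), by positivity, (min_le_right _ _).trans_lt (by norm_num), ?_⟩
  set t := min (ε / 2) (1 / 2) with ht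
  have ht0 : 0 < t := by positivity
  have ht1 : t < 1 := (min_le_right _ _).trans_lt (by norm_num)
  intro κ x hx
  have hκ : GG r κ = GG r (κ % 3) := by
    unfold GG
    apply Finset.filter_congr
    intro c _
    rw [Nat.add_mod_mod]
  have h3 := h2 (y := t) (by
    rw [Real.dist_eq, sub_zero, abs_of_pos ht0]
    exact (min_le_left _ _).trans_lt (by linarith)) (κ % 3)
    (Finset.mem_range.2 (Nat.mod_lt _ (by norm_num))) x hx hx ht0
  rw [EE, ← hκ, ← EE] at h3
  have h4 : ∀ c ∈ GG r κ, ∏ i, (x i (c i)) ^ (1 - t) ≤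
      WW x c + t * ((1 - t)⁻¹ * Real.negMulLog ((WW x c) ^ (1 - t))) := by
    intro c _
    rw [Real.finsetProd_rpow _ _ (fun i _ => ((mem_DD.1 hx) i).1 _)]
    exact rpow_le_aux (WW_nonneg hx c) ht1
  calc ∑ c ∈ GG r κ, ∏ i, (x i (c i)) ^ (1 - t) ≤
        ∑ c ∈ GG r κ, (WW x c + t * ((1 - t)⁻¹ * Real.negMulLog ((WW x c) ^ (1 - t)))) :=
        Finset.sum_le_sum h4
    _ = ∑ c ∈ GG r κ, WW x c + t * EE r κ t x := by
        rw [Finset.sum_add_distrib, EE, Finset.mul_sum]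
    _ ≤ 1 + t * Real.log 4 := h3
    _ ≤ (4 : ℝ) ^ t := by
        rw [Real.rpow_def_of_pos (by norm_num)]
        have := Real.add_one_le_exp (Real.log 4 * t)
        linarith

end Pool.Agent.H417_gam
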