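import Pool.Agent.H417_gam.Blk
import Pool.Agent.TH930.HW.Ridout

/-! Almost injectivity of the block maps. -/

set_option autoImplicit false
open Finset Filter Topology

namespace Pool.Agent.H417_gam

theorem near_inj (Q : ℕ) (hQ : 1 ≤ Q) {δ : ℝ} (hδ : 0 < δ) (hδ1 : δ ≤ 1 / 2) :
    ∃ d0 : ℕ, ∀ d : ℕ, d0 ≤ d → ∀ l : ℕ, 3 ^ (Q * l) ≤ 2 ^ d → ∀ N : ℕ,
      (N = 2 ^ d ∨ 2 ^ d * N ≡ 1 [MOD 3 ^ ((Q + 1) * l)]) → ∀ b ≤ Q, ∀ X X' : ℕ, X < X' →
      X' < 3 ^ l → ff N l b X = ff N l b X' →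
      (3 : ℝ) ^ l * Real.exp (-(δ * d)) < 2 * ((X' : ℝ) - X) := by
  haveI : Fact (Nat.Prime 3) := ⟨by norm_num⟩
  haveI : Fact (Nat.Prime 2) := ⟨by norm_num⟩
  obtain ⟨d0, hR⟩ := Pool.Agent.TH930.HW.ridout (p := 3) (q := 2) (by norm_num) hδ
  refine ⟨d0, fun d hd l hl N hN b hb X X' hXX hX' hff => ?_⟩
  by_contra hcon
  push Not at hcon
  -- the difference
  obtain ⟨q, hq, hq0⟩ : ∃ q : ℕ, X' = X + q ∧ 1 ≤ q := ⟨X' - X, by omega, by omega⟩
  have hqR : (X' : ℝ) - X = q := by rw [hq]; push_cast; ring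
  rw [hqR] at hcon
  have hql : q < 3 ^ l := by omega
  have hq1 : (1 : ℝ) ≤ q := by exact_mod_cast hq0
  set A : ℕ := N * X / 3 ^ (b * l) with hA
  set A' : ℕ := N * X' / 3 ^ (b * l) with hA'
  set r : ℕ := N * X % 3 ^ (b * l) with hr
  set r' : ℕ := N * X' % 3 ^ (b * l) with hr'
  have e1 : 3 ^ (b * l) * A + r = N * X := Nat.div_add_mod _ _
  have e2 : 3 ^ (b * l) * A' + r' = N * X' := Nat.div_add_mod _ _
  have hrlt : r < 3 ^ (b * l) := Nat.mod_lt _ (by positivity)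
  have hrlt' : r' < 3 ^ (b * l) := Nat.mod_lt _ (by positivity)
  have hAA : A ≡ A' [MOD 3 ^ l] := hff
  have hdiv : ((3 : ℤ) ^ l) ∣ (A' : ℤ) - A := by
    have := (Nat.modEq_iff_dvd.1 hAA)
    exact_mod_cast this
  set e : ℤ := (r' : ℤ) - r with he
  set Y : ℤ := (3 : ℤ) ^ (b * l) * ((A' : ℤ) - A) with hY
  have hYq : Y + e = N * q := by
    have e1' : (3 : ℤ) ^ (b * l) * A + r = N * X := by exact_mod_cast e1
    have e2' : (3 : ℤ) ^ (b * l) * A' + r' = N * X' := by exact_mod_cast e2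
    have e3 : (X' : ℤ) = X + q := by rw [hq]; push_cast; ring
    rw [e3] at e2'
    rw [hY, he]
    linear_combination e2' - e1'
  have he_lt : |e| < 3 ^ (b * l) := by
    rw [abs_lt, he]
    have h1 : (r : ℤ) < 3 ^ (b * l) := by exact_mod_cast hrlt
    have h2 : (r' : ℤ) < 3 ^ (b * l) := by exact_mod_cast hrlt'
    constructor <;> omega
  have hYdvd : ((3 : ℕ) : ℤ) ^ ((b + 1) * l) ∣ Y := by
    rw [hY, add_mul, one_mul, pow_add]
    exact mul_dvd_mul_left _ hdiv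
  -- sizes
  have hQl : Q * l ≤ d := by
    have h1 : 2 ^ (Q * l) ≤ 2 ^ d := (Nat.pow_le_pow_left (by norm_num) _).trans hl
    exact (Nat.pow_le_pow_iff_right (by norm_num)).1 h1
  have hbl : 3 ^ (b * l) ≤ 2 ^ d :=
    (Nat.pow_le_pow_right (by norm_num) (Nat.mul_le_mul_right l hb)).trans hl
  have hll : 3 ^ l ≤ 2 ^ d := by
    refine le_trans (Nat.pow_le_pow_right (by norm_num) ?_) hl
    calc l = 1 * l := (one_mul l).symm
      _ ≤ Q * l := Nat.mul_le_mul_right l hQ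
  have hLd : (b + 1) * l ≤ 2 * d := by
    calc (b + 1) * l ≤ (Q + Q) * l := Nat.mul_le_mul_right l (by omega)
      _ = 2 * (Q * l) := by ring
      _ ≤ 2 * d := by omega
  have hδL : δ * (((b + 1) * l : ℕ) : ℝ) ≤ d := by
    have h1 : (((b + 1) * l : ℕ) : ℝ) ≤ 2 * d := by exact_mod_cast hLd
    calc δ * (((b + 1) * l : ℕ) : ℝ) ≤ δ * (2 * d) := mul_le_mul_of_nonneg_left h1 hδ.le
      _ ≤ (1 / 2) * (2 * d) := mul_le_mul_of_nonneg_right hδ1 (by positivity)
      _ = d := by ring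
  have hδK : δ * (d : ℝ) ≤ d := by
    calc δ * (d : ℝ) ≤ 1 * d := mul_le_mul_of_nonneg_right (by linarith) (by positivity)
      _ = d := one_mul _
  set x : ℝ := Real.exp (-(δ * d)) with hx
  have hx0 : 0 < x := Real.exp_pos _
  have h3l : (3 : ℝ) ^ ((b + 1) * l) = 3 ^ (b * l) * 3 ^ l := by
    rw [add_mul, one_mul, pow_add]
  have hqlR : (q : ℝ) ≤ 2 ^ d := by
    have : q ≤ 2 ^ d := hql.le.trans hll
    exact_mod_cast this
  have heR : |(e : ℝ)| ≤ 3 ^ (b * l) := by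
    have : |e| ≤ 3 ^ (b * l) := he_lt.le
    exact_mod_cast this
  have hblR : (3 : ℝ) ^ (b * l) ≤ 2 ^ d := by exact_mod_cast hbl
  rcases hN with hN | hN
  · -- multiplication by a power of two
    have hN' : (N : ℤ) = 2 ^ d := by rw [hN]; push_cast; rfl
    have hY0 : Y ≠ 0 := by
      intro h0
      rw [h0, zero_add, hN'] at hYq
      rw [hYq] at he_lt
      have h1 : (3 : ℤ) ^ (b * l) ≤ 2 ^ d := by exact_mod_cast hbl
      have h2 : (2 : ℤ) ^ d * 1 ≤ 2 ^ d * q :=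
        mul_le_mul_of_nonneg_left (by exact_mod_cast hq0) (by positivity)
      rw [abs_of_nonneg (by positivity)] at he_lt
      linarith
    have he0 : e ≠ 0 := by
      intro h0
      rw [h0, add_zero] at hYq
      rw [hYq, hN'] at hYdvd
      have h1 : IsCoprime (((3 : ℕ) : ℤ) ^ ((b + 1) * l)) ((2 : ℤ) ^ d) := by
        apply IsCoprime.pow
        norm_num
      have h2 := h1.dvd_of_dvd_mul_left hYdvd
      have h3 : 3 ^ ((b + 1) * l) ∣ q := by exact_mod_cast h2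
      have h4 := Nat.le_of_dvd (by omega) h3
      have h5 : 3 ^ l ≤ 3 ^ ((b + 1) * l) := by
        apply Nat.pow_le_pow_right (by norm_num)
        calc l = 1 * l := (one_mul l).symm
          _ ≤ (b + 1) * l := Nat.mul_le_mul_right l (by omega)
      omega
    refine hR d hd ((b + 1) * l) d hδL hδK Y e hY0 he0 hYdvd ?_ ?_ ?_
    · rw [hYq, hN']
      exact Dvd.intro _ rfl
    · have h1 : |(Y : ℝ)| ≤ 2 * (2 ^ d * q) := by
        have h2 : (Y : ℝ) = 2 ^ d * q - e := by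
          have : (Y : ℝ) + e = N * q := by exact_mod_cast hYq
          have hN'' : (N : ℝ) = 2 ^ d := by rw [hN]; push_cast; rfl
          rw [hN''] at this
          linarith
        rw [h2]
        have h3 : |(2 : ℝ) ^ d * q - e| ≤ |(2 : ℝ) ^ d * q| + |(e : ℝ)| := abs_sub _ _
        rw [abs_of_nonneg (show (0 : ℝ) ≤ 2 ^ d * q by positivity)] at h3
        have h4 : (2 : ℝ) ^ d * 1 ≤ 2 ^ d * q := mul_le_mul_of_nonneg_left hq1 (by positivity)
        linarith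
      calc |(Y : ℝ)| * |(e : ℝ)| ≤ (2 * (2 ^ d * q)) * 3 ^ (b * l) :=
            mul_le_mul h1 heR (abs_nonneg _) (by positivity)
        _ = (2 ^ d * 3 ^ (b * l)) * (2 * q) := by ring
        _ ≤ (2 ^ d * 3 ^ (b * l)) * (3 ^ l * x) := mul_le_mul_of_nonneg_left hcon (by positivity)
        _ = ((3 : ℕ) : ℝ) ^ ((b + 1) * l) * ((2 : ℕ) : ℝ) ^ d * x := by
            push_cast; rw [h3l]; ring
    · calc |(e : ℝ)| ≤ 3 ^ (b * l) * 1 := by rw [mul_one]; exact heR
        _ ≤ 3 ^ (b * l) * (3 ^ l * x) := by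
            apply mul_le_mul_of_nonneg_left _ (by positivity)
            linarith
        _ = ((3 : ℕ) : ℝ) ^ ((b + 1) * l) * x := by push_cast; rw [h3l]; ring
  · -- multiplication by an inverse of a power of two
    have hNd : ((3 : ℕ) : ℤ) ^ ((b + 1) * l) ∣ 2 ^ d * N - 1 := by
      have h1 := (Nat.modEq_iff_dvd.1 hN.symm)
      push_cast at h1
      refine dvd_trans ?_ h1
      push_cast
      exact pow_dvd_pow 3 (Nat.mul_le_mul_right l (by omega))
    set Z : ℤ := 2 ^ d * e - q with hZ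
    have hZdvd : ((3 : ℕ) : ℤ) ^ ((b + 1) * l) ∣ Z := by
      have h1 : Z = (2 ^ d * N - 1) * q - 2 ^ d * Y := by
        rw [hZ]
        linear_combination (2 : ℤ) ^ d * hYq
      rw [h1]
      exact dvd_sub (hNd.mul_right _) (hYdvd.mul_left _)
    have hZ0 : Z ≠ 0 := by
      intro h0
      have h1 : (2 : ℤ) ^ d * e = q := by rw [hZ] at h0; linarith
      have hqZ : (0 : ℤ) < q := by exact_mod_cast hq0
      have he1 : 0 < e := by
        by_contra h2
        push Not at h2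
        have : (2 : ℤ) ^ d * e ≤ 0 := mul_nonpos_of_nonneg_of_nonpos (by positivity) h2
        linarith
      have h2 : (2 : ℤ) ^ d * 1 ≤ 2 ^ d * e := mul_le_mul_of_nonneg_left (by omega) (by positivity)
      have h3 : (q : ℤ) < 2 ^ d := by
        have : q < 2 ^ d := lt_of_lt_of_le hql hll
        exact_mod_cast this
      linarith
    have hqZ : (q : ℤ) ≠ 0 := by
      have : (0 : ℤ) < q := by exact_mod_cast hq0
      exact this.ne'
    refine hR d hd ((b + 1) * l) d hδL hδK Z q hZ0 hqZ hZdvd ?_ ?_ ?_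
    · have : Z + q = 2 ^ d * e := by rw [hZ]; ring
      rw [this]
      exact Dvd.intro _ rfl
    · have h1 : |(Z : ℝ)| ≤ 2 * (2 ^ d * 3 ^ (b * l)) := by
        have h2 : (Z : ℝ) = 2 ^ d * e - q := by rw [hZ]; push_cast; ring
        rw [h2]
        have h3 : |(2 : ℝ) ^ d * e - q| ≤ |(2 : ℝ) ^ d * e| + |(q : ℝ)| := abs_sub _ _
        rw [abs_mul, abs_of_nonneg (show (0 : ℝ) ≤ 2 ^ d by positivity),
          abs_of_nonneg (show (0 : ℝ) ≤ q by positivity)] at h3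
        have h4 : (2 : ℝ) ^ d * |(e : ℝ)| ≤ 2 ^ d * 3 ^ (b * l) :=
          mul_le_mul_of_nonneg_left heR (by positivity)
        have h5 : (2 : ℝ) ^ d * 1 ≤ 2 ^ d * 3 ^ (b * l) :=
          mul_le_mul_of_nonneg_left (one_le_pow₀ (by norm_num)) (by positivity)
        linarith
      have h2 : |((q : ℤ) : ℝ)| = q := by
        rw [Int.cast_natCast]
        exact abs_of_nonneg (by positivity)
      rw [h2]
      calc |(Z : ℝ)| * q ≤ (2 * (2 ^ d * 3 ^ (b * l))) * q :=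
            mul_le_mul_of_nonneg_right h1 (by positivity)
        _ = (2 ^ d * 3 ^ (b * l)) * (2 * q) := by ring
        _ ≤ (2 ^ d * 3 ^ (b * l)) * (3 ^ l * x) := mul_le_mul_of_nonneg_left hcon (by positivity)
        _ = ((3 : ℕ) : ℝ) ^ ((b + 1) * l) * ((2 : ℕ) : ℝ) ^ d * x := by
            push_cast; rw [h3l]; ring
    · have h2 : |((q : ℤ) : ℝ)| = q := by
        rw [Int.cast_natCast]
        exact abs_of_nonneg (by positivity)
      rw [h2]
      have h3 : (1 : ℝ) ≤ 3 ^ (b * l) := one_le_pow₀ (by norm_num)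
      calc (q : ℝ) ≤ 1 * (3 ^ l * x) := by linarith
        _ ≤ 3 ^ (b * l) * (3 ^ l * x) := mul_le_mul_of_nonneg_right h3 (by positivity)
        _ = ((3 : ℕ) : ℝ) ^ ((b + 1) * l) * x := by push_cast; rw [h3l]; ring

/-- **fibre bound** -/
theorem fibre_bound (Q : ℕ) (hQ : 1 ≤ Q) {δ : ℝ} (hδ : 0 < δ) (hδ1 : δ ≤ 1 / 2) :
    ∃ d0 : ℕ, ∀ d : ℕ, d0 ≤ d → ∀ l : ℕ, 3 ^ (Q * l) ≤ 2 ^ d → ∀ N : ℕ,
      (N = 2 ^ d ∨ 2 ^ d * N ≡ 1 [MOD 3 ^ ((Q + 1) * l)]) → ∀ V : Finset ℕ,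
      (∀ w ∈ V, w < 3 ^ l) → ∀ b ≤ Q, ∀ y : ℕ,
      (V.filter (fun X => ff N l b X = y)).card ≤ ⌊2 * Real.exp (δ * d)⌋₊ + 1 := by
  classical
  obtain ⟨d0, h⟩ := near_inj Q hQ hδ hδ1
  refine ⟨d0, fun d hd l hl N hN V hV b hb y => ?_⟩
  set g : ℝ := 3 ^ l * Real.exp (-(δ * d)) / 2 with hg
  have hg0 : 0 < g := by positivity
  have hgap : ∀ X X' : ℕ, X < X' → X' < 3 ^ l → ff N l b X = ff N l b X' → g < (X' : ℝ) - X := by
    intro X X' h1 h2 h3
    have := h d hd l hl N hN b hb X X' h1 h2 h3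
    rw [hg]; linarith
  have hmaps : ∀ X ∈ V.filter (fun X => ff N l b X = y),
      ⌊(X : ℝ) / g⌋₊ ∈ Finset.range (⌊2 * Real.exp (δ * d)⌋₊ + 1) := by
    intro X hX
    rw [Finset.mem_filter] at hX
    rw [Finset.mem_range, Nat.lt_succ_iff]
    apply Nat.floor_le_floor
    rw [div_le_iff₀ hg0, hg]
    have h1 : (X : ℝ) < 3 ^ l := by exact_mod_cast hV X hX.1
    have h2 : 2 * Real.exp (δ * d) * (3 ^ l * Real.exp (-(δ * d)) / 2) =
        3 ^ l * (Real.exp (δ * d) * Real.exp (-(δ * d))) := by ring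
    rw [h2, ← Real.exp_add, add_neg_cancel, Real.exp_zero, mul_one]
    exact h1.le
  have hinj : Set.InjOn (fun X : ℕ => ⌊(X : ℝ) / g⌋₊)
      (V.filter (fun X => ff N l b X = y) : Finset ℕ) := by
    have key : ∀ X X' : ℕ, X ∈ V.filter (fun X => ff N l b X = y) →
        X' ∈ V.filter (fun X => ff N l b X = y) → X < X' → ⌊(X : ℝ) / g⌋₊ ≠ ⌊(X' : ℝ) / g⌋₊ := by
      intro X X' hX hX' hlt heq
      rw [Finset.mem_filter] at hX hX'
      have h1 := hgap X X' hlt (hV X' hX'.1) (hX.2.trans hX'.2.symm)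
      have h2 : (⌊(X : ℝ) / g⌋₊ : ℝ) ≤ X / g := Nat.floor_le (by positivity)
      have h3 : (X' : ℝ) / g < ⌊(X' : ℝ) / g⌋₊ + 1 := Nat.lt_floor_add_one _
      rw [← heq] at h3
      have h4 : (X' : ℝ) / g < X / g + 1 := by linarith
      rw [div_lt_iff₀ hg0, add_mul, div_mul_cancel₀ _ hg0.ne', one_mul] at h4
      linarith
    intro X hX X' hX' heq
    rcases lt_trichotomy X X' with h1 | h1 | h1
    · exact absurd heq (key X X' hX hX' h1)
    · exact h1
    · exact absurd heq.symm (key X' X hX' hX h1)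
  calc (V.filter (fun X => ff N l b X = y)).card ≤
        (Finset.range (⌊2 * Real.exp (δ * d)⌋₊ + 1)).card :=
        Finset.card_le_card_of_injOn _ hmaps hinj
    _ = _ := Finset.card_range _

end Pool.Agent.H417_gam
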