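import Pool.Agent.H417_gam.Step

/-! Iteration over nested scales. -/

set_option autoImplicit false
open Finset Filter Topology

namespace Pool.Agent.H417_gam

lemma Sys.card_mul {V : ℕ → Finset ℕ} (hV : Sys V) (n : ℕ) : ∀ k : ℕ,
    (V (k * n)).card ≤ (V n).card ^ k := by
  intro k
  induction k with
  | zero =>
    rw [pow_zero]
    apply Finset.card_le_one.2
    intro a ha b hb
    have h1 := hV.lt _ a ha
    have h2 := hV.lt _ b hb
    simp only [zero_mul, pow_zero, Nat.lt_one_iff] at h1 h2
    rw [h1, h2]
  | succ k ih =>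
    have e : (k + 1) * n = k * n + n := by ring
    rw [e, pow_succ]
    exact (hV.card_add _ _).trans (Nat.mul_le_mul_right _ ih)

lemma Sys.log_le {V : ℕ → Finset ℕ} (hV : Sys V) (hne : ∀ n, (V n).Nonempty)
    (h1 : (V 1).card ≤ 2) {n : ℕ} (hn : 1 ≤ n) {β : ℝ}
    (hβ : Real.log (V n).card ≤ β * n) (hβ0 : 0 ≤ β) (l : ℕ) :
    Real.log (V l).card ≤ β * l + n := by
  have hlog2 : Real.log 2 ≤ 1 := by
    have := Real.log_le_sub_one_of_pos (show (0 : ℝ) < 2 by norm_num)
    linarith
  have e : (l / n) * n + l % n = l := Nat.div_add_mod' l n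
  have h2 : (V (l % n)).card ≤ 2 ^ (l % n) := by
    have := hV.card_mul 1 (l % n)
    rw [mul_one] at this
    exact this.trans (Nat.pow_le_pow_left h1 _)
  have h3 : (V l).card ≤ (V n).card ^ (l / n) * 2 ^ (l % n) := by
    have h4 := hV.card_add ((l / n) * n) (l % n)
    rw [e] at h4
    exact h4.trans (Nat.mul_le_mul (hV.card_mul n _) h2)
  have hpos : ∀ n, (0 : ℝ) < (V n).card := fun n => by exact_mod_cast (hne n).card_pos
  have h4 : Real.log (V l).card ≤ Real.log (((V n).card : ℝ) ^ (l / n) * 2 ^ (l % n)) := by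
    apply Real.log_le_log (hpos l)
    exact_mod_cast h3
  rw [Real.log_mul (pow_pos (hpos n) _).ne' (by positivity), Real.log_pow, Real.log_pow] at h4
  have h5 : ((l / n : ℕ) : ℝ) * n ≤ l := by
    have : (l / n) * n ≤ l := Nat.div_mul_le_self l n
    exact_mod_cast this
  have h6 : ((l % n : ℕ) : ℝ) ≤ n := by exact_mod_cast (Nat.mod_lt l (by omega)).le
  calc Real.log (V l).card ≤ (l / n : ℕ) * Real.log (V n).card + (l % n : ℕ) * Real.log 2 := h4
    _ ≤ (l / n : ℕ) * (β * n) + (l % n : ℕ) * 1 := by
        apply add_le_add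
        · exact mul_le_mul_of_nonneg_left hβ (by positivity)
        · exact mul_le_mul_of_nonneg_left hlog2 (by positivity)
    _ = β * ((l / n : ℕ) * n) + (l % n : ℕ) := by ring
    _ ≤ β * l + n := add_le_add (mul_le_mul_of_nonneg_left h5 hβ0) h6

/-- a family of word systems indexed by exponents, with mutual partners -/
structure Fam (S : Finset ℕ) (V : ℕ → ℕ → Finset ℕ) : Prop where
  sys : ∀ m ∈ S, Sys (V m)
  ne : ∀ m ∈ S, ∀ n, (V m n).Nonempty
  one : ∀ m ∈ S, (V m 1).card ≤ 2
  up : ∀ m ∈ S, ∀ d, m + d ∈ S → Part (V m) d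
  down : ∀ m ∈ S, ∀ d, m + d ∈ S → Part (V (m + d)) d

lemma Fam.mono {S S' : Finset ℕ} {V : ℕ → ℕ → Finset ℕ} (h : Fam S V) (hs : S' ⊆ S) : Fam S' V where
  sys := fun m hm => h.sys m (hs hm)
  ne := fun m hm => h.ne m (hs hm)
  one := fun m hm => h.one m (hs hm)
  up := fun m hm d hd => h.up m (hs hm) d (hs hd)
  down := fun m hm d hd => h.down m (hs hm) d (hs hd)

theorem iterate (h : ℝ) (hh : 0 < h) : ∃ k : ℕ, ∀ (S : Finset ℕ) (V : ℕ → ℕ → Finset ℕ),
    Fam S V → k ≤ S.card → ∃ m ∈ S, ∃ n : ℕ, 1 ≤ n ∧ Real.log (V m n).card ≤ h * n := by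
  classical
  obtain ⟨t, ht0, ht1, Q, C, d0, hQ, hC, hstep⟩ := step h hh
  have hth : 0 < t * h := mul_pos ht0 hh
  have hCR : (1 : ℝ) ≤ C := by exact_mod_cast hC
  have hQR : (1 : ℝ) ≤ Q := by exact_mod_cast hQ
  set R : ℕ := ⌈32 * Q * C / (t * h)⌉₊ with hR
  have hR1 : 32 * Q * C ≤ (R : ℝ) * (t * h) := by
    have : 32 * Q * C / (t * h) ≤ R := Nat.le_ceil _
    rwa [div_le_iff₀ hth] at this
  have hR0 : 1 ≤ R := Nat.one_le_iff_ne_zero.2 (by
    rw [hR]
    exact (Nat.ceil_pos.2 (by positivity)).ne')
  have main : ∀ s : ℕ, ∃ k : ℕ, ∀ (D : ℕ) (S : Finset ℕ) (V : ℕ → ℕ → Finset ℕ), Fam S V →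
      k ≤ S.card → (∀ x ∈ S, ∀ y ∈ S, x ≤ y + D) → ∃ m ∈ S, ∃ n : ℕ, 1 ≤ n ∧ n ≤ C * (D + 1) ∧
        Real.log (V m n).card ≤ max h ((1 - t / 4) ^ s) * n := by
    intro s
    induction s with
    | zero =>
      refine ⟨1, fun D S V hF hk _ => ?_⟩
      obtain ⟨m, hm⟩ := Finset.card_pos.1 (show 0 < S.card by omega)
      refine ⟨m, hm, 1, le_rfl, ?_, ?_⟩
      · calc 1 ≤ C := hC
          _ = C * 1 := (mul_one C).symm
          _ ≤ C * (D + 1) := Nat.mul_le_mul_left C (by omega)
      · have h1 : Real.log (V m 1).card ≤ 1 := by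
          have h2 : ((V m 1).card : ℝ) ≤ 2 := by exact_mod_cast hF.one m hm
          have h3 : (0 : ℝ) < (V m 1).card := by exact_mod_cast (hF.ne m hm 1).card_pos
          have := Real.log_le_sub_one_of_pos h3
          linarith
        rw [pow_zero]
        calc Real.log (V m 1).card ≤ 1 := h1
          _ ≤ max h 1 := le_max_right _ _
          _ = max h 1 * ((1 : ℕ) : ℝ) := by simp
    | succ s ih =>
      obtain ⟨k, hk⟩ := ih
      refine ⟨max (2 * R * k) (max (R + 1) (2 * d0 + 2)), fun D S V hF hcard hD => ?_⟩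
      have c1 : 2 * R * k ≤ S.card := (le_max_left _ _).trans hcard
      have c2 : R + 1 ≤ S.card := ((le_max_left _ _).trans (le_max_right _ _)).trans hcard
      have c3 : 2 * d0 + 2 ≤ S.card := ((le_max_right _ _).trans (le_max_right _ _)).trans hcard
      have hSne : S.Nonempty := Finset.card_pos.1 (by omega)
      set a := S.min' hSne with ha
      set b := S.max' hSne with hb
      have haS : a ∈ S := S.min'_mem hSne
      have hbS : b ∈ S := S.max'_mem hSne
      have hax : ∀ x ∈ S, a ≤ x := fun x hx => S.min'_le x hx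
      have hxb : ∀ x ∈ S, x ≤ b := fun x hx => S.le_max' x hx
      have hab : a ≤ b := hax b hbS
      set L := b - a with hL
      have hLc : S.card ≤ L + 1 := by
        have h1 : S ⊆ Finset.Icc a b := fun x hx => Finset.mem_Icc.2 ⟨hax x hx, hxb x hx⟩
        have h2 := Finset.card_le_card h1
        rw [Nat.card_Icc] at h2
        omega
      have hLD : L ≤ D := by
        have := hD b hbS a haS
        omega
      set g := L / R with hg
      have hg1 : 1 ≤ g := by
        rw [hg, Nat.one_le_div_iff (by omega)]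
        omega
      have hgR : g * R ≤ L := Nat.div_mul_le_self L R
      have hLg : L < R * (g + 1) := by
        rw [hg]
        exact Nat.lt_mul_div_succ L (by omega)
      have hmaps : ∀ x ∈ S, (x - a) / g ∈ Finset.range (2 * R) := by
        intro x hx
        rw [Finset.mem_range, Nat.div_lt_iff_lt_mul (by omega)]
        have h1 := hxb x hx
        have h2 : x - a ≤ L := by omega
        calc x - a ≤ L := h2
          _ < R * (g + 1) := hLg
          _ ≤ R * (g + g) := Nat.mul_le_mul_left R (by omega)
          _ = 2 * R * g := by ring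
      obtain ⟨y, _, hy⟩ := Finset.exists_le_card_fiber_of_mul_le_card_of_maps_to hmaps
        (Finset.nonempty_range_iff.2 (by omega)) (by rw [Finset.card_range]; exact c1)
      set S' := S.filter (fun x => (x - a) / g = y) with hS'
      have hS'S : S' ⊆ S := Finset.filter_subset _ _
      have hdiam : ∀ x ∈ S', ∀ z ∈ S', x ≤ z + (g - 1) := by
        intro x hx z hz
        rw [hS', Finset.mem_filter] at hx hz
        have h1 := hax x hx.1
        have h2 := hax z hz.1
        have h3 := Nat.div_add_mod (x - a) g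
        have h4 := Nat.div_add_mod (z - a) g
        have h5 := Nat.mod_lt (x - a) (show g > 0 by omega)
        rw [hx.2] at h3
        rw [hz.2] at h4
        omega
      obtain ⟨m, hm, n, hn1, hnC, hlog⟩ := hk (g - 1) S' V (hF.mono hS'S) hy hdiam
      have hg2 : g - 1 + 1 = g := by omega
      rw [hg2] at hnC
      have hmS : m ∈ S := hS'S hm
      -- the partner
      obtain ⟨d, hd2, hdL, hpart⟩ : ∃ d : ℕ, L ≤ 2 * d ∧ d ≤ L ∧ Part (V m) d := by
        have h1 := hax m hmS
        have h2 := hxb m hmS
        by_cases hc : L ≤ 2 * (m - a)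
        · refine ⟨m - a, hc, by omega, ?_⟩
          have := hF.down a haS (m - a) (by rwa [Nat.add_sub_cancel' h1])
          rwa [Nat.add_sub_cancel' h1] at this
        · refine ⟨b - m, by omega, by omega, ?_⟩
          exact hF.up m hmS (b - m) (by rwa [Nat.add_sub_cancel' h2])
      have hdd0 : d0 ≤ d := by omega
      obtain ⟨l, hl1, hld, hdl, himp⟩ := hstep d hdd0 (V m) (hF.sys m hmS) (hF.ne m hmS) hpart
      have hl1R : (1 : ℝ) ≤ l := by exact_mod_cast hl1
      rcases le_or_gt (Real.log (V m l).card) (h * l) with hcase | hcase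
      · refine ⟨m, hmS, l, hl1, ?_, ?_⟩
        · calc l ≤ D := hld.trans (hdL.trans hLD)
            _ ≤ D + 1 := by omega
            _ = 1 * (D + 1) := (one_mul _).symm
            _ ≤ C * (D + 1) := Nat.mul_le_mul_right _ hC
        · refine hcase.trans ?_
          exact mul_le_mul_of_nonneg_right (le_max_left _ _) (by positivity)
      · have hC2 := himp hcase.le
        refine ⟨m, hmS, C * l, Nat.mul_pos hC hl1, ?_, ?_⟩
        · apply Nat.mul_le_mul_left
          have := hld.trans (hdL.trans hLD)
          omega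
        · set β : ℝ := max h ((1 - t / 4) ^ s) with hβ
          have hβ0 : 0 ≤ β := hh.le.trans (le_max_left _ _)
          have hsub := (hF.sys m hmS).log_le (hF.ne m hmS) (hF.one m hmS) hn1 hlog hβ0 l
          have hnl : (n : ℝ) ≤ l * (t * h) / 4 := by
            have e1 : n * R ≤ 8 * Q * C * l := by
              calc n * R ≤ (C * g) * R := Nat.mul_le_mul_right R hnC
                _ = C * (g * R) := by ring
                _ ≤ C * L := Nat.mul_le_mul_left C hgR
                _ ≤ C * (2 * d) := Nat.mul_le_mul_left C hd2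
                _ ≤ C * (2 * (4 * Q * l)) := by
                    apply Nat.mul_le_mul_left
                    exact Nat.mul_le_mul_left 2 hdl
                _ = 8 * Q * C * l := by ring
            have e1' : (n : ℝ) * R ≤ 8 * Q * C * l := by exact_mod_cast e1
            have e2 : (n : ℝ) * (32 * Q * C) ≤ n * (R * (t * h)) :=
              mul_le_mul_of_nonneg_left hR1 (by positivity)
            have e3 : (n : ℝ) * (R * (t * h)) ≤ 8 * Q * C * l * (t * h) := by
              calc (n : ℝ) * (R * (t * h)) = (n * R) * (t * h) := by ring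
                _ ≤ (8 * Q * C * l) * (t * h) := mul_le_mul_of_nonneg_right e1' hth.le
            have e4 : (32 * (Q : ℝ) * C) * n ≤ (32 * Q * C) * (l * (t * h) / 4) := by linarith
            exact le_of_mul_le_mul_left e4 (by positivity)
          have hA0 : 0 ≤ Real.log (V m l).card := by
            have : h * l < Real.log (V m l).card := hcase
            have h0 : 0 < h * l := by positivity
            linarith
          set A := Real.log (V m l).card with hA
          have f1 : (1 - t / 4) * A ≤ β * l := by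
            have : l * (t * h) / 4 ≤ t / 4 * A := by
              have := mul_le_mul_of_nonneg_left hcase.le (show 0 ≤ t / 4 by positivity)
              linarith
            linarith
          have f2 : (1 - t / 2) * A ≤ (1 - t / 4) * ((1 - t / 4) * A) := by nlinarith [sq_nonneg t]
          have f3 : (1 - t / 4) * ((1 - t / 4) * A) ≤ (1 - t / 4) * (β * l) :=
            mul_le_mul_of_nonneg_left f1 (by linarith)
          have f4 : (1 - t / 4) * β ≤ max h ((1 - t / 4) ^ (s + 1)) := by
            rcases le_total h ((1 - t / 4) ^ s) with h1 | h1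
            · rw [hβ, max_eq_right h1, pow_succ, mul_comm]
              exact le_max_right _ _
            · rw [hβ, max_eq_left h1]
              refine le_trans ?_ (le_max_left _ _)
              nlinarith
          calc Real.log (V m (C * l)).card ≤ (1 - t / 2) * (C * A) := hC2
            _ = C * ((1 - t / 2) * A) := by ring
            _ ≤ C * ((1 - t / 4) * (β * l)) :=
                mul_le_mul_of_nonneg_left (f2.trans f3) (by positivity)
            _ = ((1 - t / 4) * β) * (C * l) := by ring
            _ ≤ max h ((1 - t / 4) ^ (s + 1)) * (C * l) :=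
                mul_le_mul_of_nonneg_right f4 (by positivity)
            _ = max h ((1 - t / 4) ^ (s + 1)) * ((C * l : ℕ) : ℝ) := by push_cast; ring
  obtain ⟨s, hs⟩ := exists_pow_lt_of_lt_one hh (show 1 - t / 4 < 1 by linarith)
  obtain ⟨k, hk⟩ := main s
  refine ⟨max k 1, fun S V hF hcard => ?_⟩
  have hSne : S.Nonempty := Finset.card_pos.1 (by
    have := (le_max_right k 1).trans hcard
    omega)
  obtain ⟨m, hm, n, hn, _, hlog⟩ := hk (S.max' hSne) S V hF ((le_max_left _ _).trans hcard)
    (fun x hx y _ => (S.le_max' x hx).trans (Nat.le_add_left _ _))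
  refine ⟨m, hm, n, hn, ?_⟩
  rwa [max_eq_left hs.le] at hlog

end Pool.Agent.H417_gam
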