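import Pool.Agent.H417_gam.Dig

/-! Sums of several digit blocks. -/

set_option autoImplicit false
open Finset Filter Topology

namespace Pool.Agent.H417_gam

/-- no digit `2` among the lowest `n` ternary digits of `y` -/
def ok (n y : ℕ) : Prop := ∀ j < n, y / 3 ^ j % 3 ≠ 2

instance (n : ℕ) : DecidablePred (ok n) := fun y => by unfold ok; infer_instance

/-- the quotients of the elements with last digit `c` -/
def cut (A : Finset ℕ) (c : Fin 3) : Finset ℕ := (A.filter (fun a : ℕ => a % 3 = (c : ℕ))).image (· / 3)

lemma mem_cut {A : Finset ℕ} {c : Fin 3} {b : ℕ} : b ∈ cut A c ↔ 3 * b + c ∈ A := by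
  unfold cut
  simp only [Finset.mem_image, Finset.mem_filter]
  have := c.isLt
  constructor
  · rintro ⟨a, ⟨ha, h1⟩, rfl⟩
    have : 3 * (a / 3) + c = a := by rw [← h1]; omega
    rwa [this]
  · intro h
    exact ⟨3 * b + c, ⟨h, by omega⟩, by omega⟩

lemma card_cut (A : Finset ℕ) (c : Fin 3) :
    (cut A c).card = (A.filter (fun a : ℕ => a % 3 = (c : ℕ))).card := by
  unfold cut
  apply Finset.card_image_of_injOn
  intro a ha b hb hab
  simp only [Finset.coe_filter, Set.mem_ofPred_eq] at ha hb
  have : a / 3 = b / 3 := hab
  omega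

lemma sum_card_cut (A : Finset ℕ) : ∑ c, (cut A c).card = A.card := by
  classical
  simp only [card_cut]
  rw [Finset.card_eq_sum_card_fiberwise (f := fun a : ℕ => (⟨a % 3, Nat.mod_lt _ (by norm_num)⟩ : Fin 3))
    (t := univ) (fun _ _ => Finset.mem_coe.2 (Finset.mem_univ _))]
  apply Finset.sum_congr rfl
  intro c _
  congr 1
  apply Finset.filter_congr
  intro a _
  constructor
  · intro h; exact Fin.ext h
  · intro h; exact congrArg Fin.val h

theorem multi_sum {r : ℕ} {t : ℝ} (ht1 : t < 1)
    (hD : ∀ κ : ℕ, ∀ x : Fin r → Fin 3 → ℝ, x ∈ DD r →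
      ∑ c ∈ GG r κ, ∏ i, (x i (c i)) ^ (1 - t) ≤ (4 : ℝ) ^ t) :
    ∀ (l : ℕ) (A : Fin r → Finset ℕ), (∀ i, ∀ a ∈ A i, a < 3 ^ l) → ∀ κ : ℕ,
      (((Fintype.piFinset A).filter (fun a => ok l ((∑ i, a i) + κ))).card : ℝ) ≤
        4 ^ (t * l) * ∏ i, ((A i).card : ℝ) ^ (1 - t) := by
  classical
  intro l
  induction l with
  | zero =>
    intro A hA κ
    have h1 : ∀ i, (A i).card ≤ 1 := by
      intro i
      apply Finset.card_le_one.2
      intro a ha b hb
      have h1 := hA i a ha
      have h2 := hA i b hb
      simp only [pow_zero, Nat.lt_one_iff] at h1 h2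
      rw [h1, h2]
    have h2 : ∀ i, ((A i).card : ℝ) ^ (1 - t) = (A i).card := by
      intro i
      rcases Nat.le_one_iff_eq_zero_or_eq_one.1 (h1 i) with h | h
      · rw [h, Nat.cast_zero, Real.zero_rpow (by linarith)]
      · rw [h]; simp
    simp only [Nat.cast_zero, mul_zero, Real.rpow_zero, one_mul]
    rw [Finset.prod_congr rfl (fun i _ => h2 i)]
    have h3 : ((Fintype.piFinset A).filter (fun a => ok 0 ((∑ i, a i) + κ))).card ≤
        ∏ i, (A i).card := by
      rw [← Fintype.card_piFinset]
      exact Finset.card_filter_le _ _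
    exact_mod_cast h3
  | succ l ih =>
    intro A hA κ
    by_cases hne : ∀ i, (A i).Nonempty
    swap
    · push Not at hne
      obtain ⟨i, hi⟩ := hne
      have : Fintype.piFinset A = ∅ := by
        rw [Finset.eq_empty_iff_forall_notMem]
        intro a ha
        have := (Fintype.mem_piFinset.1 ha) i
        rw [hi] at this
        simp at this
      rw [this]
      simp only [Finset.filter_empty, Finset.card_empty, Nat.cast_zero]
      positivity
    set X := (Fintype.piFinset A).filter (fun a => ok (l + 1) ((∑ i, a i) + κ)) with hX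
    have hc0 : ∀ i, (0 : ℝ) < (A i).card := fun i => by exact_mod_cast (hne i).card_pos
    have hfib : (X.card : ℝ) = ∑ c : Fin r → Fin 3, ((X.filter (fun a =>
        (fun i => (⟨a i % 3, Nat.mod_lt _ (by norm_num)⟩ : Fin 3)) = c)).card : ℝ) := by
      rw [Finset.card_eq_sum_card_fiberwise (f := fun a : Fin r → ℕ =>
        (fun i => (⟨a i % 3, Nat.mod_lt _ (by norm_num)⟩ : Fin 3)))
        (t := univ) (fun _ _ => Finset.mem_coe.2 (Finset.mem_univ _))]
      push_cast
      rfl
    have hone : ∀ c : Fin r → Fin 3, ((X.filter (fun a =>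
        (fun i => (⟨a i % 3, Nat.mod_lt _ (by norm_num)⟩ : Fin 3)) = c)).card : ℝ) ≤
        if c ∈ GG r κ then 4 ^ (t * l) * ∏ i, ((cut (A i) (c i)).card : ℝ) ^ (1 - t) else 0 := by
      intro c
      by_cases hc : c ∈ GG r κ
      · rw [if_pos hc]
        refine le_trans ?_ (ih (fun i => cut (A i) (c i)) ?_ (((∑ i, (c i : ℕ)) + κ) / 3))
        · have : (X.filter (fun a =>
            (fun i => (⟨a i % 3, Nat.mod_lt _ (by norm_num)⟩ : Fin 3)) = c)).card ≤
            ((Fintype.piFinset (fun i => cut (A i) (c i))).filter
              (fun a => ok l ((∑ i, a i) + ((∑ i, (c i : ℕ)) + κ) / 3))).card := by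
            apply Finset.card_le_card_of_injOn (fun a i => a i / 3)
            · intro a ha
              simp only [Finset.coe_filter, Set.mem_ofPred_eq, hX, Finset.mem_filter,
                Fintype.mem_piFinset] at ha ⊢
              obtain ⟨⟨ha1, ha2⟩, ha3⟩ := ha
              have hmod : ∀ i, a i % 3 = c i := fun i => by
                have := congrFun ha3 i
                exact congrArg Fin.val this
              refine ⟨?_, ?_⟩
              · intro i
                rw [mem_cut, ← hmod i]
                have : 3 * (a i / 3) + a i % 3 = a i := by omega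
                rw [this]; exact ha1 i
              · intro j hj
                have h1 := ha2 (j + 1) (by omega)
                have h2 : (∑ i, a i) + κ = 3 * (∑ i, a i / 3) + ((∑ i, (c i : ℕ)) + κ) := by
                  rw [Finset.mul_sum, ← add_assoc, ← Finset.sum_add_distrib]
                  congr 1
                  apply Finset.sum_congr rfl
                  intro i _
                  rw [← hmod i]
                  omega
                rw [h2, pow_succ', ← Nat.div_div_eq_div_mul] at h1
                have h3 : (3 * (∑ i, a i / 3) + ((∑ i, (c i : ℕ)) + κ)) / 3 =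
                    (∑ i, a i / 3) + ((∑ i, (c i : ℕ)) + κ) / 3 := by omega
                rwa [h3] at h1
            · intro a ha b hb hab
              simp only [Finset.coe_filter, Set.mem_ofPred_eq] at ha hb
              funext i
              have h1 := congrArg Fin.val (congrFun ha.2 i)
              have h2 := congrArg Fin.val (congrFun hb.2 i)
              have h3 : a i / 3 = b i / 3 := congrFun hab i
              simp only at h1 h2
              omega
          exact_mod_cast this
        · intro i a ha
          rw [mem_cut] at ha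
          have := hA i _ ha
          rw [pow_succ] at this
          omega
      · rw [if_neg hc]
        have : X.filter (fun a =>
            (fun i => (⟨a i % 3, Nat.mod_lt _ (by norm_num)⟩ : Fin 3)) = c) = ∅ := by
          rw [Finset.eq_empty_iff_forall_notMem]
          intro a ha
          simp only [hX, Finset.mem_filter, Fintype.mem_piFinset] at ha
          obtain ⟨⟨ha1, ha2⟩, ha3⟩ := ha
          apply hc
          simp only [GG, Finset.mem_filter, Finset.mem_univ, true_and]
          have h1 := ha2 0 (by omega)
          rw [pow_zero, Nat.div_one] at h1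
          have hmod : ∀ i, a i % 3 = c i := fun i => by
            have := congrFun ha3 i
            exact congrArg Fin.val this
          have h2 : (∑ i, a i) + κ = 3 * (∑ i, a i / 3) + ((∑ i, (c i : ℕ)) + κ) := by
            rw [Finset.mul_sum, ← add_assoc, ← Finset.sum_add_distrib]
            congr 1
            apply Finset.sum_congr rfl
            intro i _
            rw [← hmod i]
            omega
          rw [h2] at h1
          omega
        rw [this]; simp
    have hsum : ∑ c ∈ GG r κ, ∏ i, ((cut (A i) (c i)).card : ℝ) ^ (1 - t) ≤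
        4 ^ t * ∏ i, ((A i).card : ℝ) ^ (1 - t) := by
      have h1 := hD κ (fun i c => ((cut (A i) c).card : ℝ) / (A i).card) (by
        rw [mem_DD]
        intro i
        refine ⟨fun c => by positivity, ?_⟩
        rw [← Finset.sum_div, div_eq_one_iff_eq (hc0 i).ne']
        exact_mod_cast sum_card_cut (A i))
      have h2 : ∀ c : Fin r → Fin 3, ∏ i, ((cut (A i) (c i)).card : ℝ) ^ (1 - t) =
          (∏ i, (((cut (A i) (c i)).card : ℝ) / (A i).card) ^ (1 - t)) *
            ∏ i, ((A i).card : ℝ) ^ (1 - t) := by
        intro c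
        rw [← Finset.prod_mul_distrib]
        apply Finset.prod_congr rfl
        intro i _
        rw [← Real.mul_rpow (by positivity) (hc0 i).le, div_mul_cancel₀ _ (hc0 i).ne']
      rw [Finset.sum_congr rfl (fun c _ => h2 c), ← Finset.sum_mul]
      exact mul_le_mul_of_nonneg_right h1 (by positivity)
    calc (X.card : ℝ) = _ := hfib
      _ ≤ ∑ c : Fin r → Fin 3,
          (if c ∈ GG r κ then 4 ^ (t * l) * ∏ i, ((cut (A i) (c i)).card : ℝ) ^ (1 - t) else 0) :=
          Finset.sum_le_sum (fun c _ => hone c)
      _ = ∑ c ∈ GG r κ, 4 ^ (t * l) * ∏ i, ((cut (A i) (c i)).card : ℝ) ^ (1 - t) := by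
          rw [Finset.sum_ite_mem, Finset.univ_inter]
      _ = 4 ^ (t * l) * ∑ c ∈ GG r κ, ∏ i, ((cut (A i) (c i)).card : ℝ) ^ (1 - t) := by
          rw [Finset.mul_sum]
      _ ≤ 4 ^ (t * l) * (4 ^ t * ∏ i, ((A i).card : ℝ) ^ (1 - t)) :=
          mul_le_mul_of_nonneg_left hsum (by positivity)
      _ = 4 ^ (t * (l + 1 : ℕ)) * ∏ i, ((A i).card : ℝ) ^ (1 - t) := by
          rw [← mul_assoc, ← Real.rpow_add (by norm_num)]
          congr 2
          push_cast
          ring

end Pool.Agent.H417_gam
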