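import Pool.Agent.H417_gam.Inj

/-! The entropy of the words drops by a definite factor at each partner. -/

set_option autoImplicit false
open Finset Filter Topology

namespace Pool.Agent.H417_gam

/-- there is a partner at distance `d` -/
def Part (V : ℕ → Finset ℕ) (d : ℕ) : Prop :=
  ∀ n : ℕ, ∃ N : ℕ, (N = 2 ^ d ∨ 2 ^ d * N ≡ 1 [MOD 3 ^ n]) ∧
    ∃ u : ℕ → ℕ, ∀ w ∈ V n, ∃ c < 2 ^ d, ok n (N * w + u c)

lemma scale_facts {Q : ℕ} (hQ : 1 ≤ Q) {d : ℕ} (hd : 2 * Q ≤ d) :
    3 ^ (Q * Nat.log (3 ^ Q) (2 ^ d)) ≤ 2 ^ d ∧ 1 ≤ Nat.log (3 ^ Q) (2 ^ d) ∧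
      Nat.log (3 ^ Q) (2 ^ d) ≤ d ∧ d ≤ 4 * Q * Nat.log (3 ^ Q) (2 ^ d) := by
  set l := Nat.log (3 ^ Q) (2 ^ d) with hl
  have hb : 1 < 3 ^ Q := Nat.one_lt_pow (by omega) (by norm_num)
  have h1 : 3 ^ (Q * l) ≤ 2 ^ d := by
    rw [pow_mul]
    exact Nat.pow_log_le_self _ (by positivity)
  have h2 : 2 ^ d < 3 ^ (Q * (l + 1)) := by
    rw [pow_mul]
    exact Nat.lt_pow_succ_log_self hb _
  have h3 : d < 2 * (Q * (l + 1)) := by
    have : 2 ^ d < 2 ^ (2 * (Q * (l + 1))) := by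
      refine h2.trans_le ?_
      rw [pow_mul 2 2]
      exact Nat.pow_le_pow_left (by norm_num) _
    exact (Nat.pow_lt_pow_iff_right (by norm_num)).1 this
  have h4 : 1 ≤ l := by
    by_contra hcon
    have : l = 0 := by omega
    rw [this] at h3
    omega
  refine ⟨h1, h4, ?_, ?_⟩
  · have h5 : 2 ^ (Q * l) ≤ 2 ^ d := (Nat.pow_le_pow_left (by norm_num) _).trans h1
    have h6 := (Nat.pow_le_pow_iff_right (by norm_num)).1 h5
    calc l = 1 * l := (one_mul l).symm
      _ ≤ Q * l := Nat.mul_le_mul_right l hQ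
      _ ≤ d := h6
  · have h5 : Q * (l + 1) ≤ Q * (2 * l) := Nat.mul_le_mul_left Q (by omega)
    calc d ≤ 2 * (Q * (l + 1)) := h3.le
      _ ≤ 2 * (Q * (2 * l)) := Nat.mul_le_mul_left 2 h5
      _ = 4 * Q * l := by ring

theorem step (h : ℝ) (hh : 0 < h) : ∃ t : ℝ, 0 < t ∧ t < 1 ∧ ∃ Q C d0 : ℕ, 1 ≤ Q ∧ 1 ≤ C ∧
    ∀ d : ℕ, d0 ≤ d → ∀ V : ℕ → Finset ℕ, Sys V → (∀ n, (V n).Nonempty) → Part V d →
      ∃ l : ℕ, 1 ≤ l ∧ l ≤ d ∧ d ≤ 4 * Q * l ∧ (h * l ≤ Real.log (V l).card →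
        Real.log (V (C * l)).card ≤ (1 - t / 2) * (C * Real.log (V l).card)) := by
  classical
  set Q := ⌈20 / h⌉₊ with hQdef
  have hQh : 20 ≤ (Q : ℝ) * h := by
    have : 20 / h ≤ Q := Nat.le_ceil _
    rwa [div_le_iff₀ hh] at this
  have hQ : 1 ≤ Q := Nat.one_le_iff_ne_zero.2 (by
    rw [hQdef]
    exact (Nat.ceil_pos.2 (by positivity)).ne')
  have hQR : (1 : ℝ) ≤ Q := by exact_mod_cast hQ
  obtain ⟨t, ht0, ht1, hD⟩ := digit_ineq (Q + 1)
  have hth : 0 < t * h := mul_pos ht0 hh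
  set T := ⌈40 / (t * h)⌉₊ with hTdef
  have hT : 40 ≤ (T : ℝ) * (t * h) := by
    have : 40 / (t * h) ≤ T := Nat.le_ceil _
    rwa [div_le_iff₀ hth] at this
  have hT1 : 1 ≤ T := Nat.one_le_iff_ne_zero.2 (by
    rw [hTdef]
    exact (Nat.ceil_pos.2 (by positivity)).ne')
  set δ : ℝ := min (1 / 2) (t * h / (40 * Q)) with hδdef
  have hδ : 0 < δ := by positivity
  have hδ1 : δ ≤ 1 / 2 := min_le_left _ _
  have hδ2 : δ * (40 * Q) ≤ t * h := by
    have : δ ≤ t * h / (40 * Q) := min_le_right _ _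
    rwa [le_div_iff₀ (by positivity)] at this
  obtain ⟨d1, hfib⟩ := fibre_bound Q hQ hδ hδ1
  refine ⟨t, ht0, ht1, Q, T * (Q + 1), max d1 (max (2 * Q) ⌈80 * Q / (t * h)⌉₊), hQ,
    Nat.mul_pos hT1 (by omega), ?_⟩
  intro d hd V hV hne hpart
  have hd1 : d1 ≤ d := (le_max_left _ _).trans hd
  have hd2 : 2 * Q ≤ d := ((le_max_left _ _).trans (le_max_right _ _)).trans hd
  have hd3 : 80 * Q ≤ (d : ℝ) * (t * h) := by
    have h1 : ⌈80 * Q / (t * h)⌉₊ ≤ d := ((le_max_right _ _).trans (le_max_right _ _)).trans hd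
    have h2 : 80 * Q / (t * h) ≤ d := (Nat.le_ceil _).trans (by exact_mod_cast h1)
    rwa [div_le_iff₀ hth] at h2
  obtain ⟨s1, s2, s3, s4⟩ := scale_facts hQ hd2
  set l := Nat.log (3 ^ Q) (2 ^ d) with hl
  refine ⟨l, s2, s3, s4, fun hP => ?_⟩
  have hl1 : (1 : ℝ) ≤ l := by exact_mod_cast s2
  have hdl : (d : ℝ) ≤ 4 * Q * l := by exact_mod_cast s4
  have hl20 : 20 ≤ (l : ℝ) * (t * h) := by
    have h1 : 80 * (Q : ℝ) ≤ (4 * Q * l) * (t * h) := hd3.trans (mul_le_mul_of_nonneg_right hdl hth.le)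
    have h2 : 4 * (Q : ℝ) * 20 ≤ 4 * Q * (l * (t * h)) := by linarith
    exact le_of_mul_le_mul_left h2 (by positivity)
  set P : ℝ := ((V l).card : ℝ) with hPdef
  have hP1 : 1 ≤ P := by
    have := (hne l).card_pos
    rw [hPdef]
    exact_mod_cast this
  set φ : ℕ := ⌊2 * Real.exp (δ * d)⌋₊ + 1 with hφdef
  have hφ1 : (1 : ℝ) ≤ φ := by rw [hφdef]; push_cast; linarith [Nat.cast_nonneg (α := ℝ) ⌊2 * Real.exp (δ * d)⌋₊]
  have hφ2 : Real.log φ ≤ 2 + δ * d := by
    have h1 : (φ : ℝ) ≤ 3 * Real.exp (δ * d) := by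
      rw [hφdef]
      push_cast
      have h2 : (⌊2 * Real.exp (δ * d)⌋₊ : ℝ) ≤ 2 * Real.exp (δ * d) := Nat.floor_le (by positivity)
      have h3 : 1 ≤ Real.exp (δ * d) := Real.one_le_exp (by positivity)
      linarith
    have h2 : Real.log φ ≤ Real.log (3 * Real.exp (δ * d)) := Real.log_le_log (by linarith) h1
    rw [Real.log_mul (by norm_num) (Real.exp_pos _).ne', Real.log_exp] at h2
    have h3 : Real.log 3 ≤ 2 := by
      have := Real.log_le_sub_one_of_pos (show (0 : ℝ) < 3 by norm_num)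
      linarith
    linarith
  obtain ⟨N, hN, u, hu⟩ := hpart (T * ((Q + 1) * l))
  have hN' : N = 2 ^ d ∨ 2 ^ d * N ≡ 1 [MOD 3 ^ ((Q + 1) * l)] := by
    rcases hN with h1 | h1
    · exact Or.inl h1
    · right
      apply h1.of_dvd
      apply pow_dvd_pow
      calc (Q + 1) * l = 1 * ((Q + 1) * l) := (one_mul _).symm
        _ ≤ T * ((Q + 1) * l) := Nat.mul_le_mul_right _ hT1
  have hφb := hfib d hd1 l s1 N hN' (V l) (hV.lt l)
  set K : ℝ := (Q + 2) * (φ ^ (Q + 1) * (4 ^ (t * l) * (P ^ (1 - t)) ^ (Q + 1))) with hK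
  have hK0 : 0 < K := by
    have : 0 < P := by linarith
    have : (0 : ℝ) < φ := by linarith
    positivity
  have hblock : ∀ u : ℕ, (((V ((Q + 1) * l)).filter
      (fun w => ok ((Q + 1) * l) (N * w + u))).card : ℝ) ≤ K := by
    intro u
    have := block_bound hV Q l N φ ht1 hD (fun b hb y => hφb b hb y) u
    exact this
  have hprod := prod_bound hV N ((Q + 1) * l) hK0.le hblock T
  have hcover : ((V (T * ((Q + 1) * l))).card : ℝ) ≤ 2 ^ d * K ^ T := by
    have h1 : V (T * ((Q + 1) * l)) ⊆ (Finset.range (2 ^ d)).biUnion (fun c =>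
        (V (T * ((Q + 1) * l))).filter (fun w => ok (T * ((Q + 1) * l)) (N * w + u c))) := by
      intro w hw
      obtain ⟨c, hc, hok⟩ := hu w hw
      rw [Finset.mem_biUnion]
      exact ⟨c, Finset.mem_range.2 hc, Finset.mem_filter.2 ⟨hw, hok⟩⟩
    have h2 := (Finset.card_le_card h1).trans Finset.card_biUnion_le
    calc ((V (T * ((Q + 1) * l))).card : ℝ) ≤ ((∑ c ∈ Finset.range (2 ^ d),
          ((V (T * ((Q + 1) * l))).filter
            (fun w => ok (T * ((Q + 1) * l)) (N * w + u c))).card : ℕ) : ℝ) := by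
          exact_mod_cast h2
      _ = ∑ c ∈ Finset.range (2 ^ d), (((V (T * ((Q + 1) * l))).filter
            (fun w => ok (T * ((Q + 1) * l)) (N * w + u c))).card : ℝ) := by push_cast; rfl
      _ ≤ ∑ _c ∈ Finset.range (2 ^ d), K ^ T := Finset.sum_le_sum (fun c _ => hprod (u c))
      _ = 2 ^ d * K ^ T := by
          rw [Finset.sum_const, Finset.card_range, nsmul_eq_mul]
          push_cast
          ring
  have hCl : T * (Q + 1) * l = T * ((Q + 1) * l) := by ring
  rw [hCl]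
  have hpos : (0 : ℝ) < (V (T * ((Q + 1) * l))).card := by
    have := (hne (T * ((Q + 1) * l))).card_pos
    exact_mod_cast this
  have hlog := Real.log_le_log hpos hcover
  rw [Real.log_mul (by positivity) (by positivity), Real.log_pow, Real.log_pow] at hlog
  have hlogK : Real.log K = Real.log (Q + 2) + ((Q + 1) * Real.log φ + (t * l * Real.log 4 +
      (Q + 1) * ((1 - t) * Real.log P))) := by
    have hP0 : 0 < P := by linarith
    have hφ0 : (0 : ℝ) < φ := by linarith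
    rw [hK, Real.log_mul (by positivity) (by positivity),
      Real.log_mul (by positivity) (by positivity), Real.log_mul (by positivity) (by positivity),
      Real.log_pow, Real.log_pow, Real.log_rpow (by norm_num), Real.log_rpow hP0]
    push_cast
    ring
  have hlog2 : Real.log 2 ≤ 1 := by
    have := Real.log_le_sub_one_of_pos (show (0 : ℝ) < 2 by norm_num)
    linarith
  have hlog4 : Real.log 4 ≤ 2 := by
    have h1 : Real.log 4 = 2 * Real.log 2 := by
      rw [show (4 : ℝ) = 2 ^ 2 by norm_num, Real.log_pow]; norm_num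
    linarith
  have hlogQ : Real.log (Q + 2) ≤ Q + 1 := by
    have := Real.log_le_sub_one_of_pos (show (0 : ℝ) < (Q : ℝ) + 2 by positivity)
    linarith
  have hTR : (1 : ℝ) ≤ T := by exact_mod_cast hT1
  -- the four error terms
  set G : ℝ := T * (Q + 1) * (l * (t * h)) / 10 with hG
  have g1 : (d : ℝ) * Real.log 2 ≤ G := by
    calc (d : ℝ) * Real.log 2 ≤ d * 1 := mul_le_mul_of_nonneg_left hlog2 (by positivity)
      _ ≤ 4 * Q * l := by linarith
      _ ≤ 4 * (Q + 1) * l := by nlinarith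
      _ = 40 * ((Q + 1) * l / 10) := by ring
      _ ≤ (T * (t * h)) * ((Q + 1) * l / 10) := mul_le_mul_of_nonneg_right hT (by positivity)
      _ = G := by rw [hG]; ring
  have g2 : (T : ℝ) * Real.log (Q + 2) ≤ G := by
    calc (T : ℝ) * Real.log (Q + 2) ≤ T * (Q + 1) := mul_le_mul_of_nonneg_left hlogQ (by positivity)
      _ = 10 * (T * (Q + 1) / 10) := by ring
      _ ≤ (l * (t * h)) * (T * (Q + 1) / 10) :=
          mul_le_mul_of_nonneg_right (by linarith) (by positivity)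
      _ = G := by rw [hG]; ring
  have g3 : (T : ℝ) * ((Q + 1) * Real.log φ) ≤ 2 * G := by
    have h1 : δ * d ≤ l * (t * h) / 10 := by
      calc δ * d ≤ δ * (4 * Q * l) := mul_le_mul_of_nonneg_left hdl hδ.le
        _ = (δ * (40 * Q)) * (l / 10) := by ring
        _ ≤ (t * h) * (l / 10) := mul_le_mul_of_nonneg_right hδ2 (by positivity)
        _ = _ := by ring
    have h2 : Real.log φ ≤ 2 * (l * (t * h) / 10) := by linarith
    calc (T : ℝ) * ((Q + 1) * Real.log φ) ≤ T * ((Q + 1) * (2 * (l * (t * h) / 10))) := by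
          apply mul_le_mul_of_nonneg_left _ (by positivity)
          exact mul_le_mul_of_nonneg_left h2 (by positivity)
      _ = 2 * G := by rw [hG]; ring
  have g4 : (T : ℝ) * (t * l * Real.log 4) ≤ G := by
    calc (T : ℝ) * (t * l * Real.log 4) ≤ T * (t * l * 2) := by
          apply mul_le_mul_of_nonneg_left _ (by positivity)
          exact mul_le_mul_of_nonneg_left hlog4 (by positivity)
      _ = 20 * (T * t * l / 10) := by ring
      _ ≤ ((Q + 1) * h) * (T * t * l / 10) := by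
          apply mul_le_mul_of_nonneg_right _ (by positivity)
          nlinarith
      _ = G := by rw [hG]; ring
  have g5 : 5 * G ≤ (t / 2) * (T * (Q + 1) * Real.log P) := by
    calc 5 * G = (t / 2) * (T * (Q + 1) * (h * l)) := by rw [hG]; ring
      _ ≤ (t / 2) * (T * (Q + 1) * Real.log P) := by
          apply mul_le_mul_of_nonneg_left _ (by positivity)
          exact mul_le_mul_of_nonneg_left hP (by positivity)
  rw [hlogK] at hlog
  push_cast
  have hfin : (d : ℝ) * Real.log 2 + T * (Real.log (Q + 2) + ((Q + 1) * Real.log φ +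
      (t * l * Real.log 4 + (Q + 1) * ((1 - t) * Real.log P)))) ≤
      (1 - t / 2) * (T * (Q + 1) * Real.log P) := by
    have e1 : (T : ℝ) * (Real.log (Q + 2) + ((Q + 1) * Real.log φ +
      (t * l * Real.log 4 + (Q + 1) * ((1 - t) * Real.log P)))) =
      T * Real.log (Q + 2) + T * ((Q + 1) * Real.log φ) + T * (t * l * Real.log 4) +
        (1 - t) * (T * (Q + 1) * Real.log P) := by ring
    rw [e1]
    have e2 : (1 - t / 2) * (T * (Q + 1) * Real.log P) = (1 - t) * (T * (Q + 1) * Real.log P) +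
      (t / 2) * (T * (Q + 1) * Real.log P) := by ring
    rw [e2]
    linarith
  exact hlog.trans hfin

end Pool.Agent.H417_gam
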