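import Pool.Agent.H417_gam.Iter
import Pool.Agent.TH338.LG.Dimn

/-! Windows of digits of `2 ^ m a`, and the dimension bound. -/

set_option autoImplicit false
open MeasureTheory Finset Filter Topology
open scoped ENNReal NNReal MeasureTheory

namespace Pool.Agent.H417_gam

open Pool.Agent.TH338.LG

open Classical in
/-- the words of length `n` of `2 ^ m a` in windows in which all `2 ^ m' a`, `m' ∈ S`, have no digit `2` -/
noncomputable def VV (S : Finset ℕ) (m n : ℕ) : Finset ℕ :=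
  (Finset.range (3 ^ n)).filter (fun w => ∃ a n0 : ℕ, (∀ m' ∈ S, ok n (2 ^ m' * a / 3 ^ n0)) ∧
    2 ^ m * a / 3 ^ n0 % 3 ^ n = w)

lemma mem_VV {S : Finset ℕ} {m n w : ℕ} : w ∈ VV S m n ↔
    ∃ a n0 : ℕ, (∀ m' ∈ S, ok n (2 ^ m' * a / 3 ^ n0)) ∧ 2 ^ m * a / 3 ^ n0 % 3 ^ n = w := by
  classical
  unfold VV
  rw [Finset.mem_filter, Finset.mem_range]
  constructor
  · exact fun h => h.2
  · rintro ⟨a, n0, h1, h2⟩
    exact ⟨by rw [← h2]; exact Nat.mod_lt _ (by positivity), a, n0, h1, h2⟩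

lemma sys_VV (S : Finset ℕ) (m : ℕ) : Sys (VV S m) where
  lt := by
    intro n w hw
    obtain ⟨a, n0, _, h2⟩ := mem_VV.1 hw
    rw [← h2]
    exact Nat.mod_lt _ (by positivity)
  low := by
    intro n n' w hw
    obtain ⟨a, n0, h1, h2⟩ := mem_VV.1 hw
    refine mem_VV.2 ⟨a, n0, fun m' hm' => ok_low (h1 m' hm'), ?_⟩
    rw [← h2, Nat.mod_mod_of_dvd _ (pow_dvd_pow 3 (Nat.le_add_right n n'))]
  high := by
    intro n n' w hw
    obtain ⟨a, n0, h1, h2⟩ := mem_VV.1 hw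
    refine mem_VV.2 ⟨a, n0 + n, fun m' hm' => ?_, ?_⟩
    · have := ok_high (h1 m' hm')
      rwa [Nat.div_div_eq_div_mul, ← pow_add] at this
    · rw [← h2, pow_add 3 n n', Nat.mod_mul_right_div_self, Nat.div_div_eq_div_mul, ← pow_add]

lemma fam_VV (S : Finset ℕ) : Fam S (VV S) where
  sys := fun m _ => sys_VV S m
  ne := by
    intro m _ n
    refine ⟨0, mem_VV.2 ⟨0, 0, fun m' _ j _ => ?_, ?_⟩⟩
    · simp
    · simp
  one := by
    intro m hm
    have : VV S m 1 ⊆ Finset.range 2 := by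
      intro w hw
      obtain ⟨a, n0, h1, h2⟩ := mem_VV.1 hw
      have h3 := h1 m hm 0 (by norm_num)
      rw [pow_zero, Nat.div_one] at h3
      rw [pow_one] at h2
      rw [Finset.mem_range]
      omega
    simpa using Finset.card_le_card this
  up := by
    intro m _ d hd n
    refine ⟨2 ^ d, Or.inl rfl, fun c => c, fun w hw => ?_⟩
    obtain ⟨a, n0, h1, h2⟩ := mem_VV.1 hw
    have h3 := h1 (m + d) hd
    set y := 2 ^ m * a / 3 ^ n0 with hy
    set r := 2 ^ m * a % 3 ^ n0 with hr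
    have h4 : 3 ^ n0 * y + r = 2 ^ m * a := Nat.div_add_mod _ _
    have hr0 : r < 3 ^ n0 := Nat.mod_lt _ (by positivity)
    refine ⟨2 ^ d * r / 3 ^ n0, ?_, ?_⟩
    · rw [Nat.div_lt_iff_lt_mul (by positivity)]
      exact Nat.mul_lt_mul_of_pos_left hr0 (by positivity)
    · have h5 : 2 ^ (m + d) * a / 3 ^ n0 = 2 ^ d * y + 2 ^ d * r / 3 ^ n0 := by
        have : 2 ^ (m + d) * a = 2 ^ d * r + 3 ^ n0 * (2 ^ d * y) := by
          rw [pow_add, mul_comm (2 ^ m) (2 ^ d), mul_assoc, ← h4]; ring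
        rw [this, Nat.add_mul_div_left _ _ (by positivity)]
        ring
      rw [h5] at h3
      refine (ok_congr ?_).1 h3
      apply Nat.ModEq.add_right
      apply Nat.ModEq.mul_left
      rw [← h2]
      exact (Nat.mod_modEq _ _).symm
  down := by
    intro m hm d _ n
    obtain ⟨N, hN⟩ : ∃ N : ℕ, 2 ^ d * N ≡ 1 [MOD 3 ^ n] := by
      have hc : Nat.Coprime (2 ^ d) (3 ^ n) := Nat.Coprime.pow _ _ (by norm_num)
      rcases Nat.eq_zero_or_pos n with h0 | h0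
      · refine ⟨0, ?_⟩
        rw [h0, pow_zero]
        exact Nat.modEq_one
      · obtain ⟨N, hN⟩ := Nat.exists_mul_mod_eq_one_of_coprime hc
          (Nat.one_lt_pow (by omega) (by norm_num))
        refine ⟨N, ?_⟩
        have h1 : 1 < 3 ^ n := Nat.one_lt_pow (by omega) (by norm_num)
        have h2 := hN.2
        show 2 ^ d * N % 3 ^ n = 1 % 3 ^ n
        rw [h2, Nat.mod_eq_of_lt h1]
    refine ⟨N, Or.inr hN, fun c => (3 ^ n - 1) * (N * c), fun w hw => ?_⟩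
    obtain ⟨a, n0, h1, h2⟩ := mem_VV.1 hw
    have h3 := h1 m hm
    set y := 2 ^ m * a / 3 ^ n0 with hy
    set r := 2 ^ m * a % 3 ^ n0 with hr
    have h4 : 3 ^ n0 * y + r = 2 ^ m * a := Nat.div_add_mod _ _
    have hr0 : r < 3 ^ n0 := Nat.mod_lt _ (by positivity)
    refine ⟨2 ^ d * r / 3 ^ n0, ?_, ?_⟩
    · rw [Nat.div_lt_iff_lt_mul (by positivity)]
      exact Nat.mul_lt_mul_of_pos_left hr0 (by positivity)
    · set c := 2 ^ d * r / 3 ^ n0 with hc
      have h5 : 2 ^ (m + d) * a / 3 ^ n0 = 2 ^ d * y + c := by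
        have : 2 ^ (m + d) * a = 2 ^ d * r + 3 ^ n0 * (2 ^ d * y) := by
          rw [pow_add, mul_comm (2 ^ m) (2 ^ d), mul_assoc, ← h4]; ring
        rw [this, Nat.add_mul_div_left _ _ (by positivity)]
        ring
      have h6 : w ≡ 2 ^ d * y + c [MOD 3 ^ n] := by
        rw [← h2, h5]
        exact Nat.mod_modEq _ _
      refine (ok_congr ?_).1 h3
      have h7 : N * w + (3 ^ n - 1) * (N * c) ≡ N * (2 ^ d * y + c) + (3 ^ n - 1) * (N * c)
          [MOD 3 ^ n] := (h6.mul_left N).add_right _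
      refine Nat.ModEq.trans ?_ h7.symm
      have h8 : N * (2 ^ d * y + c) + (3 ^ n - 1) * (N * c) = (2 ^ d * N) * y + 3 ^ n * (N * c) := by
        obtain ⟨p, hp⟩ : ∃ p, 3 ^ n = p + 1 := ⟨3 ^ n - 1, by
          have : 0 < 3 ^ n := by positivity
          omega⟩
        rw [hp, Nat.add_sub_cancel]
        ring
      rw [h8]
      have h9 : (2 ^ d * N) * y + 3 ^ n * (N * c) ≡ 1 * y + 0 [MOD 3 ^ n] := by
        apply Nat.ModEq.add
        · exact hN.mul_right y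
        · exact (Nat.modEq_zero_iff_dvd.2 (Dvd.intro _ rfl))
      rw [one_mul, add_zero] at h9
      exact h9.symm

open Classical in
/-- residues built from `k` blocks -/
noncomputable def BB (W : Finset ℕ) (n : ℕ) : ℕ → Finset ℕ
  | 0 => {0}
  | k + 1 => (BB W n k ×ˢ W).image (fun p => p.1 + 3 ^ (k * n) * p.2)

lemma card_BB (W : Finset ℕ) (n k : ℕ) : (BB W n k).card ≤ W.card ^ k := by
  induction k with
  | zero => simp [BB]
  | succ k ih =>
    rw [BB]
    refine Finset.card_image_le.trans ?_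
    rw [Finset.card_product, pow_succ]
    exact Nat.mul_le_mul_right _ ih

lemma appr_mem_BB {S : Finset ℕ} {m : ℕ} {x : ℤ_[3]}
    (hx : ∀ m' ∈ S, Om ((2 : ℤ_[3]) ^ m' * x)) (n k : ℕ) :
    ((2 : ℤ_[3]) ^ m * x).appr (k * n) ∈ BB (VV S m n) n k := by
  classical
  induction k with
  | zero =>
    simp only [zero_mul, BB, Finset.mem_singleton]
    have := PadicInt.appr_lt ((2 : ℤ_[3]) ^ m * x) 0
    simpa using this
  | succ k ih =>
    set M := (k + 1) * n with hM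
    have hMe : M = k * n + n := by rw [hM]; ring
    have hkM : k * n ≤ M := by omega
    set a := x.appr M with ha
    have h1 : ((2 : ℤ_[3]) ^ m * x).appr M = (2 ^ m * a) % 3 ^ M := appr_pow_mul x m le_rfl
    have h2 : ((2 : ℤ_[3]) ^ m * x).appr (k * n) = ((2 : ℤ_[3]) ^ m * x).appr M % 3 ^ (k * n) :=
      (appr_mod _ hkM).symm
    have h3 : ((2 : ℤ_[3]) ^ m * x).appr M / 3 ^ (k * n) = 2 ^ m * a / 3 ^ (k * n) % 3 ^ n := by
      rw [h1, hMe, pow_add, Nat.mod_mul_right_div_self]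
    rw [BB, Finset.mem_image]
    refine ⟨(((2 : ℤ_[3]) ^ m * x).appr (k * n), 2 ^ m * a / 3 ^ (k * n) % 3 ^ n),
      Finset.mem_product.2 ⟨ih, mem_VV.2 ⟨a, k * n, fun m' hm' j hj => ?_, rfl⟩⟩, ?_⟩
    · have h4 := (hx m' hm').digit (M := M) (k := k * n + j) (by omega)
      rw [Nat.div_div_eq_div_mul, ← pow_add]
      exact h4
    · show ((2 : ℤ_[3]) ^ m * x).appr (k * n) + 3 ^ (k * n) * (2 ^ m * a / 3 ^ (k * n) % 3 ^ n) = _
      rw [← h3, h2]
      exact Nat.mod_add_div _ _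

/-- the dimension bound for a finite set of exponents -/
lemma dim_fin (S : Finset ℕ) (m n : ℕ) (hn : 1 ≤ n) (d : ℝ≥0)
    (hcard : ((VV S m n).card : ℝ) ≤ ((3 : ℝ) ^ n) ^ (d : ℝ)) :
    dimH {x : ℤ_[3] | ∀ m' ∈ S, Om ((2 : ℤ_[3]) ^ m' * x)} ≤ d := by
  classical
  borelize ℤ_[3]
  set E : Set ℤ_[3] := {x : ℤ_[3] | ∀ m' ∈ S, Om ((2 : ℤ_[3]) ^ m' * x)} with hE
  set q : ℝ := 1 / 3 ^ n with hq
  have hq0 : 0 < q := by positivity
  have hq1 : q < 1 := by
    rw [hq, div_lt_one (by positivity)]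
    exact one_lt_pow₀ (by norm_num) (by omega)
  set t : ∀ k : ℕ, BB (VV S m n) n k → Set ℤ_[3] := fun k i =>
    {x | ((2 : ℤ_[3]) ^ m * x).appr (k * n) = i.1} with ht
  have hdiam : ∀ k (i : BB (VV S m n) n k), Metric.ediam (t k i) ≤ ENNReal.ofReal (q ^ k) := by
    intro k i
    refine Metric.ediam_le fun x hx y hy => ?_
    rw [edist_dist, dist_eq_norm]
    refine ENNReal.ofReal_le_ofReal ?_
    have hx' : ((2 : ℤ_[3]) ^ m * x).appr (k * n) = i.1 := hx
    have hy' : ((2 : ℤ_[3]) ^ m * y).appr (k * n) = i.1 := hy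
    have h1 := appr_dvd ((2 : ℤ_[3]) ^ m * x) (k * n)
    have h2 := appr_dvd ((2 : ℤ_[3]) ^ m * y) (k * n)
    rw [hx'] at h1
    rw [hy'] at h2
    have h3 : ((3 : ℕ) : ℤ_[3]) ^ (k * n) ∣ (2 : ℤ_[3]) ^ m * (x - y) := by
      have := dvd_sub h1 h2
      have e : (2 : ℤ_[3]) ^ m * x - (i.1 : ℤ_[3]) - ((2 : ℤ_[3]) ^ m * y - (i.1 : ℤ_[3])) =
          (2 : ℤ_[3]) ^ m * (x - y) := by ring
      rwa [e] at this
    have h4 : ‖(2 : ℤ_[3]) ^ m * (x - y)‖ ≤ ((3 : ℕ) : ℝ) ^ (-((k * n : ℕ) : ℤ)) := by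
      rw [PadicInt.norm_le_pow_iff_mem_span_pow, Ideal.mem_span_singleton]
      exact h3
    have h5 : ‖(2 : ℤ_[3])‖ = 1 := by
      by_contra hne
      have h6 : ‖(2 : ℤ_[3])‖ < 1 := lt_of_le_of_ne (PadicInt.norm_le_one _) hne
      have h7 : ‖((2 : ℤ) : ℤ_[3])‖ < 1 := by push_cast; exact h6
      rw [PadicInt.norm_int_lt_one_iff_dvd] at h7
      omega
    rw [norm_mul, norm_pow, h5, one_pow, one_mul] at h4
    refine h4.trans (le_of_eq ?_)
    rw [hq, zpow_neg, zpow_natCast, one_div, inv_pow, ← pow_mul, mul_comm k n]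
    push_cast
    rfl
  have hcov : ∀ k, E ⊆ ⋃ i, t k i := by
    intro k x hx
    rw [Set.mem_iUnion]
    exact ⟨⟨_, appr_mem_BB hx n k⟩, rfl⟩
  have hr : Tendsto (fun k : ℕ => ENNReal.ofReal (q ^ k)) atTop (𝓝 0) := by
    have := (ENNReal.continuous_ofReal.tendsto 0).comp
      (tendsto_pow_atTop_nhds_zero_of_lt_one hq0.le hq1)
    simpa [Function.comp_def] using this
  have hmain := Measure.hausdorffMeasure_le_liminf_sum (d : ℝ) E
    (fun k : ℕ => ENNReal.ofReal (q ^ k)) hr t (Eventually.of_forall hdiam)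
    (Eventually.of_forall hcov)
  have hsum : ∀ k, ∑ i, Metric.ediam (t k i) ^ (d : ℝ) ≤ 1 := by
    intro k
    calc ∑ i, Metric.ediam (t k i) ^ (d : ℝ) ≤
          ∑ _i : BB (VV S m n) n k, ENNReal.ofReal (q ^ k) ^ (d : ℝ) :=
          Finset.sum_le_sum fun i _ => ENNReal.rpow_le_rpow (hdiam k i) d.2
      _ = ((BB (VV S m n) n k).card : ℝ≥0∞) * ENNReal.ofReal (q ^ k) ^ (d : ℝ) := by
          rw [Finset.sum_const, Finset.card_univ, Fintype.card_coe, nsmul_eq_mul]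
      _ = ENNReal.ofReal (((BB (VV S m n) n k).card : ℝ) * (q ^ k) ^ (d : ℝ)) := by
          rw [ENNReal.ofReal_mul (Nat.cast_nonneg _), ENNReal.ofReal_natCast,
            ENNReal.ofReal_rpow_of_nonneg (by positivity) (NNReal.coe_nonneg d)]
      _ ≤ ENNReal.ofReal 1 := by
          refine ENNReal.ofReal_le_ofReal ?_
          have h1 : ((BB (VV S m n) n k).card : ℝ) ≤ ((VV S m n).card : ℝ) ^ k := by
            exact_mod_cast card_BB (VV S m n) n k
          have h2 : (q ^ k) ^ (d : ℝ) = (q ^ (d : ℝ)) ^ k := by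
            rw [← Real.rpow_natCast q k, ← Real.rpow_mul hq0.le, mul_comm,
              Real.rpow_mul hq0.le, Real.rpow_natCast]
          have h3 : ((VV S m n).card : ℝ) * q ^ (d : ℝ) ≤ 1 := by
            have e1 : q ^ (d : ℝ) = (((3 : ℝ) ^ n) ^ (d : ℝ))⁻¹ := by
              rw [hq, one_div, Real.inv_rpow (by positivity)]
            rw [e1, ← div_eq_mul_inv]
            exact (div_le_one (by positivity)).2 hcard
          rw [h2]
          calc ((BB (VV S m n) n k).card : ℝ) * (q ^ (d : ℝ)) ^ k ≤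
                ((VV S m n).card : ℝ) ^ k * (q ^ (d : ℝ)) ^ k :=
                mul_le_mul_of_nonneg_right h1 (by positivity)
            _ = (((VV S m n).card : ℝ) * q ^ (d : ℝ)) ^ k := by rw [mul_pow]
            _ ≤ 1 := pow_le_one₀ (by positivity) h3
      _ = 1 := ENNReal.ofReal_one
  have hfin : μH[(d : ℝ)] E ≤ 1 := by
    refine hmain.trans ?_
    calc liminf (fun k => ∑ i, Metric.ediam (t k i) ^ (d : ℝ)) atTop ≤
          liminf (fun _ : ℕ => (1 : ℝ≥0∞)) atTop :=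
          liminf_le_liminf (Eventually.of_forall hsum)
      _ = 1 := liminf_const 1
  exact dimH_le_of_hausdorffMeasure_ne_top (ne_top_of_le_ne_top ENNReal.one_ne_top hfin)

/-- **uniform dimension bound** -/
theorem uniform_dim (e : ℝ≥0) (he : 0 < e) : ∃ k : ℕ, ∀ S : Finset ℕ, k ≤ S.card →
    dimH {x : ℤ_[3] | ∀ m ∈ S, Om ((2 : ℤ_[3]) ^ m * x)} ≤ e := by
  obtain ⟨k, hk⟩ := iterate (e : ℝ) (by exact_mod_cast he)
  refine ⟨k, fun S hS => ?_⟩
  obtain ⟨m, hm, n, hn, hlog⟩ := hk S (VV S) (fam_VV S) hS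
  apply dim_fin S m n hn e
  have hpos : (0 : ℝ) < (VV S m n).card := by
    exact_mod_cast ((fam_VV S).ne m hm n).card_pos
  rw [Real.log_le_iff_le_exp hpos] at hlog
  refine hlog.trans ?_
  rw [← Real.rpow_natCast 3 n, ← Real.rpow_mul (by norm_num), Real.rpow_def_of_pos (by norm_num)]
  apply Real.exp_le_exp.2
  have h1 : 1 ≤ Real.log 3 := by
    rw [Real.le_log_iff_exp_le (by norm_num)]
    have := Real.exp_one_lt_d9
    linarith
  have h2 : (0 : ℝ) ≤ (e : ℝ) * n := by positivity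
  calc (e : ℝ) * n = 1 * (e * n) := (one_mul _).symm
    _ ≤ Real.log 3 * (e * n) := mul_le_mul_of_nonneg_right h1 h2
    _ = Real.log 3 * (n * e) := by ring

/-- **Theorem.** The dyadic nesting constant is zero. -/
theorem nesting_zero : Tendsto (fun k : ℕ => dimH {x : ℤ_[3] |
    (k : ℕ∞) ≤ {n : ℕ | Om ((2 : ℤ_[3]) ^ n * x)}.encard}) atTop (𝓝 0) := by
  classical
  rw [ENNReal.tendsto_nhds_zero]
  intro ε hε
  obtain ⟨e, he0, hee⟩ : ∃ e : ℝ≥0, 0 < e ∧ (e : ℝ≥0∞) ≤ ε := by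
    obtain ⟨e, h1, h2⟩ := ENNReal.lt_iff_exists_nnreal_btwn.1 hε
    exact ⟨e, by exact_mod_cast h1, h2.le⟩
  obtain ⟨k0, hk0⟩ := uniform_dim e he0
  filter_upwards [eventually_ge_atTop k0] with k hk
  refine le_trans ?_ hee
  have hsub : {x : ℤ_[3] | (k : ℕ∞) ≤ {n : ℕ | Om ((2 : ℤ_[3]) ^ n * x)}.encard} ⊆
      ⋃ S : {S : Finset ℕ // k0 ≤ S.card}, {x : ℤ_[3] | ∀ m ∈ S.1, Om ((2 : ℤ_[3]) ^ m * x)} := by
    intro x hx
    have hx' : (k : ℕ∞) ≤ {n : ℕ | Om ((2 : ℤ_[3]) ^ n * x)}.encard := hx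
    obtain ⟨t, htA, htk⟩ := Set.exists_subset_encard_eq hx'
    have hfin : t.Finite := Set.finite_of_encard_eq_coe htk
    rw [Set.mem_iUnion]
    refine ⟨⟨hfin.toFinset, ?_⟩, ?_⟩
    · have h1 : (hfin.toFinset.card : ℕ∞) = k := by
        rw [← hfin.encard_eq_coe_toFinset_card, htk]
      have h2 : hfin.toFinset.card = k := by exact_mod_cast h1
      omega
    · intro m hm
      exact htA (hfin.mem_toFinset.1 hm)
  refine (dimH_mono hsub).trans ?_
  rw [dimH_iUnion]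
  exact iSup_le fun S => hk0 S.1 S.2

end Pool.Agent.H417_gam
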